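import Pool.Agent.Work.MP_a03d92_mp.B.Defs

/-!
# Part B : every local function is cohomologous to a constant plus a local function vanishing on `XT`
-/

set_option autoImplicit false

open scoped BigOperators

namespace Pool.Agent.MPa03d92

variable {n : ℕ}

/-- `f` depends only on the coordinates in `F` -/
def Dep (F : Set Pt) (f : Cfg n → ℝ) : Prop := ∀ x y : Cfg n, (∀ z ∈ F, x z = y z) → f x = f y

/-- local functions -/
def Loc (f : Cfg n → ℝ) : Prop := ∃ F : Finset Pt, Dep (F : Set Pt) f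

lemma Dep.mono {F G : Set Pt} {f : Cfg n → ℝ} (h : Dep F f) (hFG : F ⊆ G) : Dep G f :=
  fun x y hxy => h x y (fun z hz => hxy z (hFG hz))

lemma Loc.const (c : ℝ) : Loc (fun _ : Cfg n => c) := ⟨∅, fun _ _ _ => rfl⟩

lemma Loc.comp₂ {f g : Cfg n → ℝ} (hf : Loc f) (hg : Loc g) (op : ℝ → ℝ → ℝ) :
    Loc (fun x => op (f x) (g x)) := by
  classical
  obtain ⟨F, hF⟩ := hf
  obtain ⟨G, hG⟩ := hg
  refine ⟨F ∪ G, fun x y h => ?_⟩
  have h1 := hF x y (fun z hz => h z (by simp only [Finset.coe_union, Set.mem_union]; exact Or.inl hz))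
  have h2 := hG x y (fun z hz => h z (by simp only [Finset.coe_union, Set.mem_union]; exact Or.inr hz))
  simp only
  rw [h1, h2]

lemma Loc.add {f g : Cfg n → ℝ} (hf : Loc f) (hg : Loc g) : Loc (fun x => f x + g x) :=
  hf.comp₂ hg (fun a b => a + b)

lemma Loc.sub {f g : Cfg n → ℝ} (hf : Loc f) (hg : Loc g) : Loc (fun x => f x - g x) :=
  hf.comp₂ hg (fun a b => a - b)

lemma Loc.mul {f g : Cfg n → ℝ} (hf : Loc f) (hg : Loc g) : Loc (fun x => f x * g x) :=
  hf.comp₂ hg (fun a b => a * b)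

lemma Loc.sum {ι : Type*} (s : Finset ι) (f : ι → Cfg n → ℝ) (hf : ∀ i ∈ s, Loc (f i)) :
    Loc (fun x => ∑ i ∈ s, f i x) := by
  classical
  induction s using Finset.induction_on with
  | empty => simpa using Loc.const 0
  | insert i s hi ih =>
    have h1 := hf i (Finset.mem_insert_self _ _)
    have h2 := ih (fun j hj => hf j (Finset.mem_insert_of_mem hj))
    have := h1.add h2
    simpa [Finset.sum_insert hi] using this

lemma Loc.shift {f : Cfg n → ℝ} (hf : Loc f) (v : Pt) : Loc (fun x => f (sh v x)) := by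
  classical
  obtain ⟨F, hF⟩ := hf
  refine ⟨F.image (fun z => z + v), fun x y h => hF _ _ (fun z hz => ?_)⟩
  apply h
  simp only [Finset.coe_image, Set.mem_image]
  exact ⟨z, hz, rfl⟩

lemma Loc.eval (v : Pt) (φ : Fin n → ℝ) : Loc (fun x : Cfg n => φ (x v)) := by
  refine ⟨{v}, fun x y h => ?_⟩
  simp only
  rw [h v (by simp)]

open Classical in
lemma Loc.evalInd (v : Pt) (P : Fin n → Prop) : Loc (fun x : Cfg n => if P (x v) then (1 : ℝ) else 0) :=
  Loc.eval v (fun t => if P t then (1 : ℝ) else 0)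

namespace SS

variable (S : SS n)

open Classical in
/-- indicator of position `(a, b)` at the origin -/
noncomputable def ind (a b : ℕ) (x : Cfg n) : ℝ := if S.px (x 0) = a ∧ S.py (x 0) = b then 1 else 0

lemma loc_ind (a b : ℕ) : Loc (S.ind a b) :=
  Loc.eval 0 (fun t => by classical exact if S.px t = a ∧ S.py t = b then 1 else 0)

/-- functions of the desubstitution -/
noncomputable def G (h : Cfg n → ℝ) (x : Cfg n) : ℝ := S.ind 0 0 x * h (S.D x)

lemma loc_G {h : Cfg n → ℝ} (hh : Loc h) : Loc (S.G h) := by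
  classical
  apply Loc.mul (S.loc_ind 0 0)
  obtain ⟨F, hF⟩ := hh
  refine ⟨F.biUnion (fun z => (Finset.range S.N ×ˢ Finset.range S.N).image (fun p => S.bp z p.1 p.2)),
    fun x y hxy => hF _ _ (fun z hz => ?_)⟩
  have e : ∀ a b, a < S.N → b < S.N → x (S.bp z a b) = y (S.bp z a b) := by
    intro a b ha hb
    apply hxy
    simp only [Finset.coe_biUnion, Set.mem_iUnion, Finset.coe_image]
    refine ⟨z, hz, (a, b), ?_, rfl⟩
    simp [ha, hb]
  simp only [D, Dval]
  have e2 : (∃ u, ∀ a b, a < S.N → b < S.N → x (S.bp z a b) = S.S u a b) ↔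
      (∃ u, ∀ a b, a < S.N → b < S.N → y (S.bp z a b) = S.S u a b) := by
    constructor
    · rintro ⟨u, hu⟩
      exact ⟨u, fun a b ha hb => by rw [← e a b ha hb]; exact hu a b ha hb⟩
    · rintro ⟨u, hu⟩
      exact ⟨u, fun a b ha hb => by rw [e a b ha hb]; exact hu a b ha hb⟩
  by_cases h1 : ∃ u, ∀ a b, a < S.N → b < S.N → x (S.bp z a b) = S.S u a b
  · have h2 := e2.1 h1
    rw [dif_pos h1, dif_pos h2]
    apply S.S_inj
    intro a b ha hb
    rw [← h1.choose_spec a b ha hb, ← h2.choose_spec a b ha hb]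
    exact e a b ha hb
  · have h2 : ¬ ∃ u, ∀ a b, a < S.N → b < S.N → y (S.bp z a b) = S.S u a b := fun h => h1 (e2.2 h)
    rw [dif_neg h1, dif_neg h2]

/-- generators -/
def gens : Set (Cfg n → ℝ) :=
  {f | (∃ c : ℝ, f = fun _ => c) ∨ (Loc f ∧ ∀ x ∈ XT S, f x = 0) ∨
    (∃ k : Cfg n → ℝ, ∃ v : Pt, Loc k ∧ f = fun x => k x - k (sh v x))}

/-- functions cohomologous to a constant plus a local function vanishing on `XT` -/
def Coh : Submodule ℝ (Cfg n → ℝ) := Submodule.span ℝ S.gens

lemma coh_const (c : ℝ) : (fun _ => c) ∈ S.Coh := Submodule.subset_span (Or.inl ⟨c, rfl⟩)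

lemma coh_vanish {f : Cfg n → ℝ} (hf : Loc f) (h0 : ∀ x ∈ XT S, f x = 0) : f ∈ S.Coh :=
  Submodule.subset_span (Or.inr (Or.inl ⟨hf, h0⟩))

lemma coh_diff {k : Cfg n → ℝ} (hk : Loc k) (v : Pt) : (fun x => k x - k (sh v x)) ∈ S.Coh :=
  Submodule.subset_span (Or.inr (Or.inr ⟨k, v, hk, rfl⟩))

/-- two local functions that agree on `XT` -/
lemma coh_congr {f g : Cfg n → ℝ} (hf : Loc f) (hg : Loc g) (h : ∀ x ∈ XT S, f x = g x)
    (hgc : g ∈ S.Coh) : f ∈ S.Coh := by
  have h1 : (fun x => f x - g x) ∈ S.Coh := S.coh_vanish (hf.sub hg) (fun x hx => by rw [h x hx, sub_self])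
  have := S.Coh.add_mem h1 hgc
  convert this using 1
  funext x
  simp

lemma coh_shift {f : Cfg n → ℝ} (hf : Loc f) (v : Pt) (h : (fun x => f (sh v x)) ∈ S.Coh) :
    f ∈ S.Coh := by
  have := S.Coh.add_mem (S.coh_diff hf v) h
  convert this using 1
  funext x
  simp

lemma coh_shift' {f : Cfg n → ℝ} (hf : Loc f) (v : Pt) (h : f ∈ S.Coh) :
    (fun x => f (sh v x)) ∈ S.Coh := by
  have := S.Coh.sub_mem h (S.coh_diff hf v)
  convert this using 1
  funext x
  simp

lemma ind_sh {x : Cfg n} (hx : x ∈ XT S) {a b : ℕ} (ha : a < S.N) (hb : b < S.N) :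
    S.ind a b (sh (pt a b) x) = S.ind 0 0 x := by
  classical
  have h := S.pos_add hx 0 (pt a b)
  rw [zero_add] at h
  simp only [pt_zero, pt_one] at h
  have hlx : (S.px (x 0) : ℤ) < S.N := by exact_mod_cast S.px_lt _
  have hly : (S.py (x 0) : ℤ) < S.N := by exact_mod_cast S.py_lt _
  have ha' : (a : ℤ) < S.N := by exact_mod_cast ha
  have hb' : (b : ℤ) < S.N := by exact_mod_cast hb
  have key : ∀ p q c : ℕ, (p : ℤ) < S.N → (c : ℤ) < S.N → (q : ℤ) = (p + c) % S.N → (q = c ↔ p = 0) := by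
    intro p q c hp hc hq
    constructor
    · intro hqc
      subst hqc
      by_contra hp0
      have hp1 : (0 : ℤ) < p := by exact_mod_cast Nat.pos_of_ne_zero hp0
      by_cases hlt : (p : ℤ) + q < S.N
      · rw [Int.emod_eq_of_lt (by positivity) hlt] at hq
        omega
      · have e : ((p : ℤ) + q) % S.N = p + q - S.N := by
          have h3 : ((p : ℤ) + q) = (p + q - S.N) + S.N * 1 := by ring
          rw [h3, Int.add_mul_emod_self_left, Int.emod_eq_of_lt (by omega) (by omega)]
          ring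
        omega
    · intro hp0
      subst hp0
      rw [Nat.cast_zero, zero_add, Int.emod_eq_of_lt (by positivity) hc] at hq
      exact_mod_cast hq
  have hx1 := key _ _ a hlx ha' h.1
  have hy1 := key _ _ b hly hb' h.2
  simp only [ind, sh_apply, zero_add]
  by_cases hc : S.px (x 0) = 0 ∧ S.py (x 0) = 0
  · rw [if_pos hc, if_pos ⟨hx1.2 hc.1, hy1.2 hc.2⟩]
  · rw [if_neg hc, if_neg (fun h => hc ⟨hx1.1 h.1, hy1.1 h.2⟩)]

lemma ind_Nv {x : Cfg n} (hx : x ∈ XT S) (v : Pt) : S.ind 0 0 (sh (S.Nv v) x) = S.ind 0 0 x := by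
  classical
  have h := S.pos_add hx 0 (S.Nv v)
  rw [zero_add] at h
  have hlx : (S.px (x 0) : ℤ) < S.N := by exact_mod_cast S.px_lt _
  have hly : (S.py (x 0) : ℤ) < S.N := by exact_mod_cast S.py_lt _
  simp only [Nv, pt_zero, pt_one] at h
  rw [Int.add_mul_emod_self_left, Int.add_mul_emod_self_left, Int.emod_eq_of_lt (by positivity) hlx,
    Int.emod_eq_of_lt (by positivity) hly] at h
  have h1 : S.px (x (S.Nv v)) = S.px (x 0) := by exact_mod_cast h.1
  have h2 : S.py (x (S.Nv v)) = S.py (x 0) := by exact_mod_cast h.2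
  simp only [ind, sh_apply, zero_add, h1, h2]

/-- sum over all positions of the indicator is `1` -/
lemma sum_ind (x : Cfg n) (g : Cfg n → ℝ) :
    ∑ a ∈ Finset.range S.N, ∑ b ∈ Finset.range S.N, S.ind a b x * g x = g x := by
  classical
  rw [Finset.sum_eq_single (S.px (x 0)), Finset.sum_eq_single (S.py (x 0))]
  · simp [ind]
  · intro b _ hb
    simp only [ind]
    rw [if_neg (fun h => hb h.2.symm), zero_mul]
  · intro h
    exact absurd (Finset.mem_range.2 (S.py_lt _)) h
  · intro a _ ha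
    apply Finset.sum_eq_zero
    intro b _
    simp only [ind]
    rw [if_neg (fun h => ha h.1.symm), zero_mul]
  · intro h
    exact absurd (Finset.mem_range.2 (S.px_lt _)) h

/-- main averaging lemma: `f` is in `Coh` as soon as the sum of its shifts over a block, times the
indicator of position `0`, is. -/
lemma coh_of_block {f : Cfg n → ℝ} (hf : Loc f)
    (h : (fun x => ∑ a ∈ Finset.range S.N, ∑ b ∈ Finset.range S.N,
      S.ind 0 0 x * f (sh (pt a b) x)) ∈ S.Coh) : f ∈ S.Coh := by
  -- each `ind a b * f` is, up to `Coh`, `ind 0 0 * f ∘ sh`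
  have h1 : ∀ a ∈ Finset.range S.N, ∀ b ∈ Finset.range S.N,
      (fun x => S.ind a b x * f x - S.ind 0 0 x * f (sh (pt a b) x)) ∈ S.Coh := by
    intro a ha b hb
    rw [Finset.mem_range] at ha hb
    have hl : Loc (fun x => S.ind a b x * f x) := (S.loc_ind a b).mul hf
    have h2 := S.coh_diff hl (pt a b)
    have h3 : (fun x => S.ind a b (sh (pt a b) x) * f (sh (pt a b) x) -
        S.ind 0 0 x * f (sh (pt a b) x)) ∈ S.Coh := by
      apply S.coh_vanish
      · exact (((S.loc_ind a b).shift _).mul (hf.shift _)).sub ((S.loc_ind 0 0).mul (hf.shift _))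
      · intro x hx
        rw [S.ind_sh hx ha hb, sub_self]
    have := S.Coh.add_mem h2 h3
    convert this using 1
    funext x
    simp
  have h2 : (fun x => ∑ a ∈ Finset.range S.N, ∑ b ∈ Finset.range S.N,
      (S.ind a b x * f x - S.ind 0 0 x * f (sh (pt a b) x))) ∈ S.Coh := by
    have : (∑ a ∈ Finset.range S.N, ∑ b ∈ Finset.range S.N,
      (fun x => S.ind a b x * f x - S.ind 0 0 x * f (sh (pt a b) x))) ∈ S.Coh := by
      apply Submodule.sum_mem
      intro a ha
      apply Submodule.sum_mem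
      intro b hb
      exact h1 a ha b hb
    convert this using 1
    funext x
    simp [Finset.sum_apply]
  have h3 := S.Coh.add_mem h2 h
  convert h3 using 1
  funext x
  simp only [Pi.add_apply]
  refine (S.sum_ind x f).symm.trans ?_
  rw [← Finset.sum_add_distrib]
  apply Finset.sum_congr rfl
  intro a _
  rw [← Finset.sum_add_distrib]
  apply Finset.sum_congr rfl
  intro b _
  ring

/-- the indicator of position `0` is in `Coh` -/
lemma coh_ind : S.ind 0 0 ∈ S.Coh := by
  have hN := S.N_pos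
  have hl := S.loc_ind 0 0
  -- `1 = sum ind a b ~ N^2 ind 0 0`
  have h1 : ∀ a ∈ Finset.range S.N, ∀ b ∈ Finset.range S.N,
      (fun x => S.ind 0 0 x - S.ind a b x) ∈ S.Coh := by
    intro a ha b hb
    rw [Finset.mem_range] at ha hb
    have h2 := S.coh_diff (S.loc_ind a b) (pt a b)
    have h3 : (fun x => S.ind a b (sh (pt a b) x) - S.ind 0 0 x) ∈ S.Coh := by
      apply S.coh_vanish
      · exact ((S.loc_ind a b).shift _).sub (S.loc_ind 0 0)
      · intro x hx
        rw [S.ind_sh hx ha hb, sub_self]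
    have := S.Coh.neg_mem (S.Coh.add_mem h2 h3)
    convert this using 1
    funext x
    simp
  have h2 : (∑ a ∈ Finset.range S.N, ∑ b ∈ Finset.range S.N,
      (fun x => S.ind 0 0 x - S.ind a b x)) ∈ S.Coh := by
    apply Submodule.sum_mem
    intro a ha
    apply Submodule.sum_mem
    intro b hb
    exact h1 a ha b hb
  have h3 := S.Coh.smul_mem (((S.N : ℝ) * S.N)⁻¹) (S.Coh.add_mem h2 (S.coh_const 1))
  convert h3 using 1
  funext x
  have hs := S.sum_ind x (fun _ => 1)
  simp only [mul_one] at hs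
  simp only [Pi.smul_apply, Pi.add_apply, Finset.sum_apply, Finset.sum_sub_distrib, hs,
    Finset.sum_const, Finset.card_range, smul_eq_mul, nsmul_eq_mul]
  have : (S.N : ℝ) ≠ 0 := by positivity
  field_simp
  ring

/-- `G` maps `Coh` to `Coh` -/
lemma coh_G {h : Cfg n → ℝ} (hh : h ∈ S.Coh) : S.G h ∈ S.Coh := by
  classical
  refine Submodule.span_induction (p := fun h _ => S.G h ∈ S.Coh) ?_ ?_ ?_ ?_ hh
  · rintro f (⟨c, rfl⟩ | ⟨hf, h0⟩ | ⟨k, v, hk, rfl⟩)
    · have := S.Coh.smul_mem c S.coh_ind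
      convert this using 1
      funext x
      simp [G, mul_comm]
    · apply S.coh_vanish (S.loc_G hf)
      intro x hx
      simp only [G, ind]
      by_cases h : S.px (x 0) = 0 ∧ S.py (x 0) = 0
      · rw [h0 _ (S.D_mem hx h), mul_zero]
      · rw [if_neg h, zero_mul]
    · have hG := S.loc_G hk
      have h1 := S.coh_diff hG (S.Nv v)
      have h2 : (fun x => S.G k (sh (S.Nv v) x) - S.ind 0 0 x * k (S.D (sh (S.Nv v) x))) ∈ S.Coh := by
        apply S.coh_vanish
        · apply (hG.shift _).sub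
          have h5 : Loc (S.G (fun y => k (sh v y))) := S.loc_G (hk.shift v)
          have e : (S.G (fun y => k (sh v y))) = (fun x => S.ind 0 0 x * k (S.D (sh (S.Nv v) x))) := by
            funext x
            simp only [G, S.D_sh]
          rw [← e]
          exact h5
        · intro x hx
          simp only [G]
          rw [S.ind_Nv hx, sub_self]
      have := S.Coh.add_mem h1 h2
      convert this using 1
      funext x
      simp only [G, Pi.add_apply, S.D_sh]
      ring
  · have : S.G (0 : Cfg n → ℝ) = 0 := by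
      funext x
      simp [G]
    rw [this]
    exact S.Coh.zero_mem
  · intro f g _ _ hf hg
    have := S.Coh.add_mem hf hg
    convert this using 1
    funext x
    simp [G, mul_add]
  · intro c f _ hf
    have := S.Coh.smul_mem c hf
    convert this using 1
    funext x
    simp [G]
    ring

/-- the lift -/
noncomputable def lift (f : Cfg n → ℝ) (y : Cfg n) : ℝ :=
  ∑ a ∈ Finset.range S.N, ∑ b ∈ Finset.range S.N, f (sh (pt a b) (S.sub y))

lemma coh_of_lift {f : Cfg n → ℝ} (hf : Loc f) (hl : Loc (S.lift f)) (h : S.lift f ∈ S.Coh) :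
    f ∈ S.Coh := by
  classical
  apply S.coh_of_block hf
  apply S.coh_congr (g := S.G (S.lift f)) _ (S.loc_G hl) _ (S.coh_G h)
  · apply Loc.sum
    intro a _
    apply Loc.sum
    intro b _
    exact (S.loc_ind 0 0).mul (hf.shift _)
  · intro x hx
    simp only [G, lift]
    by_cases h : S.px (x 0) = 0 ∧ S.py (x 0) = 0
    · rw [S.sub_D hx h, Finset.mul_sum]
      apply Finset.sum_congr rfl
      intro a _
      rw [Finset.mul_sum]
    · have : S.ind 0 0 x = 0 := by simp only [ind]; rw [if_neg h]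
      simp [this]

/-- square window -/
def win (m : ℕ) : Set Pt := {z | 0 ≤ z 0 ∧ z 0 ≤ m ∧ 0 ≤ z 1 ∧ z 1 ≤ m}

lemma win_mono {m m' : ℕ} (h : m ≤ m') : win m ⊆ win m' := by
  rintro z ⟨h1, h2, h3, h4⟩
  have : (m : ℤ) ≤ m' := by exact_mod_cast h
  exact ⟨h1, by omega, h3, by omega⟩

lemma loc_of_win {m : ℕ} {f : Cfg n → ℝ} (h : Dep (win m) f) : Loc f := by
  classical
  refine ⟨(Finset.Icc (0 : ℤ) m ×ˢ Finset.Icc (0 : ℤ) m).image (fun p => pt p.1 p.2), h.mono ?_⟩
  rintro z ⟨h1, h2, h3, h4⟩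
  simp only [Finset.coe_image, Set.mem_image]
  refine ⟨(z 0, z 1), ?_, pt_eta z⟩
  simp [h1, h2, h3, h4]

lemma dep_lift {m : ℕ} {f : Cfg n → ℝ} (h : Dep (win m) f) :
    Dep (win ((S.N - 1 + m) / S.N)) (S.lift f) := by
  intro x y hxy
  have hN := S.N_pos
  have hNZ : (0 : ℤ) < S.N := by exact_mod_cast hN
  simp only [lift]
  apply Finset.sum_congr rfl
  intro a ha
  apply Finset.sum_congr rfl
  intro b hb
  rw [Finset.mem_range] at ha hb
  apply h
  rintro z ⟨h1, h2, h3, h4⟩
  simp only [sh_apply, sub, Pi.add_apply, pt_zero, pt_one]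
  have ha' : (a : ℤ) ≤ S.N - 1 := by omega
  have hb' : (b : ℤ) ≤ S.N - 1 := by omega
  have e : (((S.N - 1 + m) / S.N : ℕ) : ℤ) = ((S.N : ℤ) - 1 + m) / S.N := by
    push_cast
    rw [Nat.cast_sub (by omega)]
    push_cast
    rfl
  rw [hxy]
  refine ⟨?_, ?_, ?_, ?_⟩
  · simp only [pt_zero]
    exact Int.ediv_nonneg (by omega) hNZ.le
  · simp only [pt_zero]
    rw [e]
    exact Int.ediv_le_ediv hNZ (by omega)
  · simp only [pt_one]
    exact Int.ediv_nonneg (by omega) hNZ.le
  · simp only [pt_one]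
    rw [e]
    exact Int.ediv_le_ediv hNZ (by omega)

lemma coh_eval (φ : Fin n → ℝ) : (fun x : Cfg n => φ (x 0)) ∈ S.Coh := by
  obtain ⟨k, hk⟩ := S.bal
  obtain ⟨c, hc⟩ := hk φ
  clear hk
  induction k generalizing φ with
  | zero =>
    simp only [Function.iterate_zero, id] at hc
    have : (fun x : Cfg n => φ (x 0)) = fun _ => c := by
      funext x
      exact hc _
    rw [this]
    exact S.coh_const c
  | succ k ih =>
    have hc' : ∀ u, ((fun (ψ : Fin n → ℝ) (v : Fin n) =>
      ∑ a ∈ Finset.range S.N, ∑ b ∈ Finset.range S.N, ψ (S.S v a b))^[k]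
        (fun v => ∑ a ∈ Finset.range S.N, ∑ b ∈ Finset.range S.N, φ (S.S v a b))) u = c := by
      intro u
      rw [← hc u, Function.iterate_succ_apply]
    have h1 := ih _ hc'
    have e : S.lift (fun x : Cfg n => φ (x 0)) =
        fun y => ∑ a ∈ Finset.range S.N, ∑ b ∈ Finset.range S.N, φ (S.S (y 0) a b) := by
      funext y
      simp only [lift]
      apply Finset.sum_congr rfl
      intro a ha
      apply Finset.sum_congr rfl
      intro b hb
      rw [Finset.mem_range] at ha hb
      simp only [sh_apply, zero_add]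
      have h3 := S.sub_bp ha hb y 0
      have h4 : S.bp 0 a b = pt a b := pt_ext (by simp [bp]) (by simp [bp])
      rw [h4] at h3
      rw [h3]
    apply S.coh_of_lift (Loc.eval 0 φ)
    · rw [e]
      exact Loc.eval 0 (fun t => ∑ a ∈ Finset.range S.N, ∑ b ∈ Finset.range S.N, φ (S.S t a b))
    · rw [e]
      exact h1

/-- for a function with window `1`, the lift is a function of `y 0` on `XT` -/
lemma lift_win_one {f : Cfg n → ℝ} (h : Dep (win 1) f) {y y' : Cfg n} (hy : y ∈ XT S) (hy' : y' ∈ XT S)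
    (h0 : y 0 = y' 0) : S.lift f y = S.lift f y' := by
  have hN := S.N_pos
  have hNZ : (0 : ℤ) < S.N := by exact_mod_cast hN
  simp only [lift]
  apply Finset.sum_congr rfl
  intro a ha
  apply Finset.sum_congr rfl
  intro b hb
  rw [Finset.mem_range] at ha hb
  apply h
  rintro z ⟨h1, h2, h3, h4⟩
  simp only [sh_apply]
  -- agree on [0, N]^2
  have key : ∀ c d : ℕ, c ≤ S.N → d ≤ S.N → S.sub y (pt c d) = S.sub y' (pt c d) := by
    intro c d hc hd
    have e00 : ∀ c d : ℕ, S.bp 0 c d = pt c d := fun c d => pt_ext (by simp [bp]) (by simp [bp])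
    have e10 : ∀ d : ℕ, S.bp e0 0 d = pt S.N d := fun d => pt_ext (by simp [bp]) (by simp [bp])
    have e01 : ∀ c : ℕ, S.bp e1 c 0 = pt c S.N := fun c => pt_ext (by simp [bp]) (by simp [bp])
    have e11 : S.bp (e0 + e1) 0 0 = pt S.N S.N := pt_ext (by simp [bp]) (by simp [bp])
    rcases Nat.lt_or_ge c S.N with hc' | hc'
    · rcases Nat.lt_or_ge d S.N with hd' | hd'
      · rw [← e00, S.sub_bp hc' hd', S.sub_bp hc' hd', h0]
      · obtain rfl : d = S.N := le_antisymm hd hd'
        rw [← e01, S.sub_bp hc' hN, S.sub_bp hc' hN]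
        apply S.det_V (y 0) _ _ _ _ _ hc'
        · have := (hy 0).2
          rwa [zero_add] at this
        · have := (hy' 0).2
          rw [zero_add] at this
          rw [h0]
          exact this
    · obtain rfl : c = S.N := le_antisymm hc hc'
      rcases Nat.lt_or_ge d S.N with hd' | hd'
      · rw [← e10, S.sub_bp hN hd', S.sub_bp hN hd']
        apply S.det_H (y 0) _ _ _ _ _ hd'
        · have := (hy 0).1
          rwa [zero_add] at this
        · have := (hy' 0).1
          rw [zero_add] at this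
          rw [h0]
          exact this
      · obtain rfl : d = S.N := le_antisymm hd hd'
        rw [← e11, S.sub_bp hN hN, S.sub_bp hN hN]
        exact S.corner _ _
  have e : z + pt a b = pt (((z 0).toNat + a : ℕ) : ℤ) (((z 1).toNat + b : ℕ) : ℤ) := by
    apply pt_ext
    · simp only [Pi.add_apply, pt_zero]
      push_cast
      rw [Int.toNat_of_nonneg h1]
    · simp only [Pi.add_apply, pt_one]
      push_cast
      rw [Int.toNat_of_nonneg h3]
  rw [e]
  apply key
  · push_cast at h2
    omega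
  · push_cast at h4
    omega

lemma coh_win (m : ℕ) (f : Cfg n → ℝ) (h : Dep (win m) f) : f ∈ S.Coh := by
  classical
  induction m using Nat.strong_induction_on generalizing f with
  | _ m ih =>
    have hN := S.hN
    rcases Nat.lt_or_ge m 2 with hm | hm
    · have h1 : Dep (win 1) f := h.mono (win_mono (by omega))
      have hl : Dep (win ((S.N - 1 + 1) / S.N)) (S.lift f) := S.dep_lift h1
      apply S.coh_of_lift (loc_of_win h1) (loc_of_win hl)
      let φ : Fin n → ℝ := fun t => if hh : ∃ y ∈ XT S, y 0 = t then S.lift f hh.choose else 0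
      apply S.coh_congr (loc_of_win hl) (Loc.eval 0 φ) _ (S.coh_eval φ)
      intro x hx
      have hh : ∃ y ∈ XT S, y 0 = x 0 := ⟨x, hx, rfl⟩
      simp only [φ]
      rw [dif_pos hh]
      exact S.lift_win_one h1 hx hh.choose_spec.1 hh.choose_spec.2.symm
    · have hl := S.dep_lift h
      apply S.coh_of_lift (loc_of_win h) (loc_of_win hl)
      apply ih _ _ _ hl
      rw [Nat.div_lt_iff_lt_mul (by omega)]
      have : m * S.N = (S.N - 1) * m + m := by
        obtain ⟨k, hk⟩ : ∃ k, S.N = k + 1 := ⟨S.N - 1, by omega⟩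
        rw [hk]
        simp only [Nat.add_sub_cancel]
        ring
      rw [this]
      have : S.N - 1 < (S.N - 1) * m := by
        have h1 : (S.N - 1) * 1 < (S.N - 1) * m := Nat.mul_lt_mul_of_pos_left (by omega) (by omega)
        omega
      omega

/-- every local function is in `Coh` -/
theorem coh_all {f : Cfg n → ℝ} (hf : Loc f) : f ∈ S.Coh := by
  classical
  obtain ⟨F, hF⟩ := id hf
  obtain ⟨m, hm⟩ : ∃ m : ℕ, ∀ z ∈ F, |z 0| ≤ m ∧ |z 1| ≤ m := by
    refine ⟨∑ z ∈ F, (|z 0| + |z 1|).toNat, fun z hz => ?_⟩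
    have h1 : (|z 0| + |z 1|).toNat ≤ ∑ z ∈ F, (|z 0| + |z 1|).toNat :=
      Finset.single_le_sum (f := fun z : Pt => (|z 0| + |z 1|).toNat) (fun _ _ => Nat.zero_le _) hz
    have h2 := abs_nonneg (z 0)
    have h3 := abs_nonneg (z 1)
    constructor <;> omega
  apply S.coh_shift hf (pt m m)
  apply S.coh_win (2 * m)
  intro x y hxy
  apply hF
  intro z hz
  simp only [sh_apply]
  apply hxy
  obtain ⟨h1, h2⟩ := hm z hz
  rw [abs_le] at h1 h2
  refine ⟨?_, ?_, ?_, ?_⟩ <;> simp only [Pi.add_apply, pt_zero, pt_one] <;> push_cast <;> omega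

end SS

end Pool.Agent.MPa03d92
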