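import Mathlib
import Pool.Agent.Work.MP_a03d92_mp.Interface

/-!
# Part B : basic definitions

Configurations on the plane lattice with values in `Fin n`, the tiling space of a substitution system,
the substitution map and the desubstitution map.
-/

set_option autoImplicit false

namespace Pool.Agent.MPa03d92

/-- points of the plane lattice -/
abbrev Pt := Fin 2 → ℤ

/-- configurations -/
abbrev Cfg (n : ℕ) := Pt → Fin n

/-- shift -/
def sh {n : ℕ} (v : Pt) (x : Cfg n) : Cfg n := fun z => x (z + v)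

/-- the point with coordinates `a`, `b` -/
def pt (a b : ℤ) : Pt := fun i => if i = 0 then a else b

@[simp] lemma pt_zero (a b : ℤ) : pt a b 0 = a := rfl
@[simp] lemma pt_one (a b : ℤ) : pt a b 1 = b := rfl

lemma pt_ext {z w : Pt} (h0 : z 0 = w 0) (h1 : z 1 = w 1) : z = w := by
  funext i
  fin_cases i
  · exact h0
  · exact h1

lemma pt_add (a b c d : ℤ) : pt a b + pt c d = pt (a + c) (b + d) := pt_ext rfl rfl

lemma pt_eta (z : Pt) : pt (z 0) (z 1) = z := pt_ext rfl rfl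

/-- the first and second unit vectors -/
def e0 : Pt := pt 1 0
def e1 : Pt := pt 0 1

@[simp] lemma e0_zero : e0 0 = 1 := rfl
@[simp] lemma e0_one : e0 1 = 0 := rfl
@[simp] lemma e1_zero : e1 0 = 0 := rfl
@[simp] lemma e1_one : e1 1 = 1 := rfl

@[simp] lemma sh_apply {n : ℕ} (v : Pt) (x : Cfg n) (z : Pt) : sh v x z = x (z + v) := rfl

lemma sh_sh {n : ℕ} (v w : Pt) (x : Cfg n) : sh v (sh w x) = sh (v + w) x := by
  funext z
  simp only [sh_apply]
  congr 1
  abel

@[simp] lemma sh_zero {n : ℕ} (x : Cfg n) : sh 0 x = x := by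
  funext z
  simp

/-- the structure of a substitution system on `Fin n` -/
structure SS (n : ℕ) where
  t0 : Fin n
  N : ℕ
  hN : 2 ≤ N
  px : Fin n → ℕ
  py : Fin n → ℕ
  px_lt : ∀ t, px t < N
  py_lt : ∀ t, py t < N
  H : Fin n → Fin n → Prop
  V : Fin n → Fin n → Prop
  H_pos : ∀ t t', H t t' → px t' = (px t + 1) % N ∧ py t' = py t
  V_pos : ∀ t t', V t t' → py t' = (py t + 1) % N ∧ px t' = px t
  S : Fin n → ℕ → ℕ → Fin n
  S_px : ∀ u a b, a < N → b < N → px (S u a b) = a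
  S_py : ∀ u a b, a < N → b < N → py (S u a b) = b
  S_H : ∀ u a b, a + 1 < N → b < N → H (S u a b) (S u (a + 1) b)
  S_V : ∀ u a b, a < N → b + 1 < N → V (S u a b) (S u a (b + 1))
  H_face : ∀ u u', H u u' ↔ ∀ b, b < N → H (S u (N - 1) b) (S u' 0 b)
  V_face : ∀ u u', V u u' ↔ ∀ a, a < N → V (S u a (N - 1)) (S u' a 0)
  S_inj : ∀ u u', (∀ a b, a < N → b < N → S u a b = S u' a b) → u = u'
  force : ∀ w : ℕ → ℕ → Fin n,
    (∀ a b, a < N → b < N → px (w a b) = a ∧ py (w a b) = b) →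
    (∀ a b, a + 1 < N → b < N → H (w a b) (w (a + 1) b)) →
    (∀ a b, a < N → b + 1 < N → V (w a b) (w a (b + 1))) →
    ∃ u, ∀ a b, a < N → b < N → w a b = S u a b
  det_H : ∀ u u' u'', H u u' → H u u'' → ∀ b, b < N → S u' 0 b = S u'' 0 b
  det_V : ∀ u u' u'', V u u' → V u u'' → ∀ a, a < N → S u' a 0 = S u'' a 0
  corner : ∀ u u', S u 0 0 = S u' 0 0
  bal : ∃ k : ℕ, ∀ φ : Fin n → ℝ, ∃ c : ℝ, ∀ u,
    ((fun (ψ : Fin n → ℝ) (v : Fin n) =>
      ∑ a ∈ Finset.range N, ∑ b ∈ Finset.range N, ψ (S v a b))^[k] φ) u = c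

/-- transport to `Fin n` -/
noncomputable def SubstSystem.toSS (S : SubstSystem) : SS (Fintype.card S.T) :=
  let e := Fintype.equivFin S.T
  { t0 := e (Classical.arbitrary S.T)
    N := S.N
    hN := S.hN
    px := fun t => S.px (e.symm t)
    py := fun t => S.py (e.symm t)
    px_lt := fun t => S.px_lt _
    py_lt := fun t => S.py_lt _
    H := fun t t' => S.H (e.symm t) (e.symm t')
    V := fun t t' => S.V (e.symm t) (e.symm t')
    H_pos := fun t t' h => S.H_pos _ _ h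
    V_pos := fun t t' h => S.V_pos _ _ h
    S := fun u a b => e (S.S (e.symm u) a b)
    S_px := fun u a b ha hb => by simpa using S.S_px _ a b ha hb
    S_py := fun u a b ha hb => by simpa using S.S_py _ a b ha hb
    S_H := fun u a b ha hb => by simpa using S.S_H _ a b ha hb
    S_V := fun u a b ha hb => by simpa using S.S_V _ a b ha hb
    H_face := fun u u' => by simpa using S.H_face _ _
    V_face := fun u u' => by simpa using S.V_face _ _
    S_inj := fun u u' h => by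
      have := S.S_inj (e.symm u) (e.symm u') (fun a b ha hb => by simpa using h a b ha hb)
      exact e.symm.injective this
    force := fun w h1 h2 h3 => by
      obtain ⟨u, hu⟩ := S.force (fun a b => e.symm (w a b)) h1 h2 h3
      refine ⟨e u, fun a b ha hb => ?_⟩
      have := hu a b ha hb
      simp only [Equiv.symm_apply_apply]
      rw [← this, Equiv.apply_symm_apply]
    det_H := fun u u' u'' h h' b hb => by
      have := S.det_H _ _ _ h h' b hb
      rw [this]
    det_V := fun u u' u'' h h' b hb => by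
      have := S.det_V _ _ _ h h' b hb
      rw [this]
    corner := fun u u' => by
      rw [S.corner (e.symm u) (e.symm u')]
    bal := by
      obtain ⟨k, hk⟩ := S.bal
      refine ⟨k, fun φ => ?_⟩
      obtain ⟨c, hc⟩ := hk (fun t => φ (e t))
      refine ⟨c, fun u => ?_⟩
      rw [← hc (e.symm u)]
      clear hc hk
      induction k generalizing φ u with
      | zero => simp
      | succ k ih =>
        rw [Function.iterate_succ_apply, Function.iterate_succ_apply, ih]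
        simp only [Equiv.symm_apply_apply] }

variable {n : ℕ}

/-- tiling space -/
def XT (S : SS n) : Set (Cfg n) :=
  {x | ∀ z, S.H (x z) (x (z + e0)) ∧ S.V (x z) (x (z + e1))}

lemma XT_sh {S : SS n} {x : Cfg n} (hx : x ∈ XT S) (v : Pt) : sh v x ∈ XT S := by
  intro z
  have := hx (z + v)
  simp only [sh_apply]
  rw [show z + e0 + v = z + v + e0 by abel, show z + e1 + v = z + v + e1 by abel]
  exact this

namespace SS

variable (S : SS n)

lemma N_pos : 0 < S.N := by have := S.hN; omega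

lemma px_hor {x : Cfg n} (hx : x ∈ XT S) (z : Pt) (a : ℤ) :
    (S.px (x (z + pt a 0)) : ℤ) = (S.px (x z) + a) % S.N ∧ S.py (x (z + pt a 0)) = S.py (x z) := by
  have hN := S.N_pos
  have hNZ : (0 : ℤ) < S.N := by exact_mod_cast hN
  have step : ∀ w : Pt, (S.px (x (w + e0)) : ℤ) = (S.px (x w) + 1) % S.N ∧
      S.py (x (w + e0)) = S.py (x w) := by
    intro w
    obtain ⟨h1, h2⟩ := S.H_pos _ _ (hx w).1
    refine ⟨?_, h2⟩
    rw [h1]
    push_cast
    rfl
  induction a using Int.induction_on with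
  | zero =>
    have : z + pt 0 0 = z := pt_ext (by simp) (by simp)
    rw [this]
    refine ⟨?_, rfl⟩
    rw [add_zero, Int.emod_eq_of_lt (by positivity)]
    exact_mod_cast S.px_lt _
  | succ a ih =>
    have h := step (z + pt a 0)
    have e : z + pt a 0 + e0 = z + pt (a + 1) 0 := pt_ext (by simp; ring) (by simp)
    rw [e] at h
    refine ⟨?_, h.2.trans ih.2⟩
    rw [h.1, ih.1, Int.emod_add_emod, add_assoc]
  | pred a ih =>
    have h := step (z + pt (-(a : ℤ) - 1) 0)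
    have e : z + pt (-(a : ℤ) - 1) 0 + e0 = z + pt (-(a : ℤ)) 0 := pt_ext (by simp; ring) (by simp)
    rw [e] at h
    refine ⟨?_, h.2.symm.trans ih.2⟩
    have hlt : (S.px (x (z + pt (-(a : ℤ) - 1) 0)) : ℤ) < S.N := by exact_mod_cast S.px_lt _
    have hnn : (0 : ℤ) ≤ (S.px (x (z + pt (-(a : ℤ) - 1) 0)) : ℤ) := by positivity
    have h3 : (S.px (x (z + pt (-(a : ℤ) - 1) 0)) + 1) % (S.N : ℤ) = (S.px (x z) + -(a : ℤ)) % S.N := by
      rw [← h.1, ih.1]
    have h4 : ((S.px (x (z + pt (-(a : ℤ) - 1) 0)) : ℤ)) % (S.N : ℤ) = (S.px (x z) + (-(a : ℤ) - 1)) % S.N := by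
      have : Int.ModEq (S.N : ℤ) (S.px (x (z + pt (-(a : ℤ) - 1) 0)) + 1) (S.px (x z) + -(a : ℤ)) := h3
      have := this.sub_right 1
      have e5 : (S.px (x z) : ℤ) + -(a : ℤ) - 1 = S.px (x z) + (-(a : ℤ) - 1) := by ring
      rw [add_sub_cancel_right, e5] at this
      exact this
    rw [← h4, Int.emod_eq_of_lt hnn hlt]

lemma py_ver {x : Cfg n} (hx : x ∈ XT S) (z : Pt) (a : ℤ) :
    (S.py (x (z + pt 0 a)) : ℤ) = (S.py (x z) + a) % S.N ∧ S.px (x (z + pt 0 a)) = S.px (x z) := by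
  have hN := S.N_pos
  have hNZ : (0 : ℤ) < S.N := by exact_mod_cast hN
  have step : ∀ w : Pt, (S.py (x (w + e1)) : ℤ) = (S.py (x w) + 1) % S.N ∧
      S.px (x (w + e1)) = S.px (x w) := by
    intro w
    obtain ⟨h1, h2⟩ := S.V_pos _ _ (hx w).2
    refine ⟨?_, h2⟩
    rw [h1]
    push_cast
    rfl
  induction a using Int.induction_on with
  | zero =>
    have : z + pt 0 0 = z := pt_ext (by simp) (by simp)
    rw [this]
    refine ⟨?_, rfl⟩
    rw [add_zero, Int.emod_eq_of_lt (by positivity)]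
    exact_mod_cast S.py_lt _
  | succ a ih =>
    have h := step (z + pt 0 a)
    have e : z + pt 0 a + e1 = z + pt 0 (a + 1) := pt_ext (by simp) (by simp; ring)
    rw [e] at h
    refine ⟨?_, h.2.trans ih.2⟩
    rw [h.1, ih.1, Int.emod_add_emod, add_assoc]
  | pred a ih =>
    have h := step (z + pt 0 (-(a : ℤ) - 1))
    have e : z + pt 0 (-(a : ℤ) - 1) + e1 = z + pt 0 (-(a : ℤ)) := pt_ext (by simp) (by simp; ring)
    rw [e] at h
    refine ⟨?_, h.2.symm.trans ih.2⟩
    have hlt : (S.py (x (z + pt 0 (-(a : ℤ) - 1))) : ℤ) < S.N := by exact_mod_cast S.py_lt _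
    have hnn : (0 : ℤ) ≤ (S.py (x (z + pt 0 (-(a : ℤ) - 1))) : ℤ) := by positivity
    have h3 : (S.py (x (z + pt 0 (-(a : ℤ) - 1))) + 1) % (S.N : ℤ) = (S.py (x z) + -(a : ℤ)) % S.N := by
      rw [← h.1, ih.1]
    have h4 : ((S.py (x (z + pt 0 (-(a : ℤ) - 1))) : ℤ)) % (S.N : ℤ) = (S.py (x z) + (-(a : ℤ) - 1)) % S.N := by
      have : Int.ModEq (S.N : ℤ) (S.py (x (z + pt 0 (-(a : ℤ) - 1))) + 1) (S.py (x z) + -(a : ℤ)) := h3
      have := this.sub_right 1
      have e5 : (S.py (x z) : ℤ) + -(a : ℤ) - 1 = S.py (x z) + (-(a : ℤ) - 1) := by ring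
      rw [add_sub_cancel_right, e5] at this
      exact this
    rw [← h4, Int.emod_eq_of_lt hnn hlt]

lemma pos_add {x : Cfg n} (hx : x ∈ XT S) (z v : Pt) :
    (S.px (x (z + v)) : ℤ) = (S.px (x z) + v 0) % S.N ∧
    (S.py (x (z + v)) : ℤ) = (S.py (x z) + v 1) % S.N := by
  have h1 := S.px_hor hx z (v 0)
  have h2 := S.py_ver hx (z + pt (v 0) 0) (v 1)
  have e : z + pt (v 0) 0 + pt 0 (v 1) = z + v := pt_ext (by simp) (by simp)
  rw [e] at h2
  refine ⟨?_, ?_⟩
  · rw [h2.2, h1.1]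
  · rw [h2.1, h1.2]

/-- substitution -/
def sub (y : Cfg n) : Cfg n := fun z =>
  S.S (y (pt (z 0 / S.N) (z 1 / S.N))) (z 0 % S.N).toNat (z 1 % S.N).toNat

/-- the point `N z + (a, b)` -/
def bp (z : Pt) (a b : ℕ) : Pt := pt (S.N * z 0 + a) (S.N * z 1 + b)

open Classical in
/-- desubstitution of a block -/
noncomputable def Dval (w : ℕ → ℕ → Fin n) : Fin n :=
  if h : ∃ u, ∀ a b, a < S.N → b < S.N → w a b = S.S u a b then h.choose else S.t0

/-- desubstitution -/
noncomputable def D (x : Cfg n) : Cfg n := fun z => S.Dval (fun a b => x (S.bp z a b))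

/-- `N v` -/
def Nv (v : Pt) : Pt := pt (S.N * v 0) (S.N * v 1)

lemma D_sh (x : Cfg n) (v : Pt) : S.D (sh (S.Nv v) x) = sh v (S.D x) := by
  funext z
  have e : ∀ a b, S.bp z a b + S.Nv v = S.bp (z + v) a b := by
    intro a b
    apply pt_ext
    · simp [bp, Nv]; ring
    · simp [bp, Nv]; ring
  simp only [D, sh_apply, e]

lemma div_bp {a b : ℕ} (ha : a < S.N) (hb : b < S.N) (z : Pt) :
    (S.bp z a b) 0 / S.N = z 0 ∧ (S.bp z a b) 1 / S.N = z 1 ∧
    ((S.bp z a b) 0 % S.N).toNat = a ∧ ((S.bp z a b) 1 % S.N).toNat = b := by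
  have hN := S.N_pos
  have hNZ : (0 : ℤ) < S.N := by exact_mod_cast hN
  have ha' : (a : ℤ) < S.N := by exact_mod_cast ha
  have hb' : (b : ℤ) < S.N := by exact_mod_cast hb
  simp only [bp, pt_zero, pt_one]
  refine ⟨?_, ?_, ?_, ?_⟩
  · rw [Int.mul_add_ediv_left _ _ hNZ.ne', Int.ediv_eq_zero_of_lt (by positivity) ha']; ring
  · rw [Int.mul_add_ediv_left _ _ hNZ.ne', Int.ediv_eq_zero_of_lt (by positivity) hb']; ring
  · rw [Int.mul_add_emod_self_left, Int.emod_eq_of_lt (by positivity) ha']; simp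
  · rw [Int.mul_add_emod_self_left, Int.emod_eq_of_lt (by positivity) hb']; simp

lemma sub_bp {a b : ℕ} (ha : a < S.N) (hb : b < S.N) (y : Cfg n) (z : Pt) :
    S.sub y (S.bp z a b) = S.S (y z) a b := by
  obtain ⟨h1, h2, h3, h4⟩ := S.div_bp ha hb z
  simp only [sub]
  rw [h1, h2, h3, h4, pt_eta]

/-- every point is of the form `N z + (a, b)` -/
lemma exists_bp (w : Pt) : ∃ z : Pt, ∃ a b : ℕ, a < S.N ∧ b < S.N ∧ w = S.bp z a b := by
  have hN := S.N_pos
  have hNZ : (0 : ℤ) < S.N := by exact_mod_cast hN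
  refine ⟨pt (w 0 / S.N) (w 1 / S.N), (w 0 % S.N).toNat, (w 1 % S.N).toNat, ?_, ?_, ?_⟩
  · have := Int.emod_lt_of_pos (w 0) hNZ
    have h2 := Int.emod_nonneg (w 0) hNZ.ne'
    omega
  · have := Int.emod_lt_of_pos (w 1) hNZ
    have h2 := Int.emod_nonneg (w 1) hNZ.ne'
    omega
  · apply pt_ext
    · simp only [bp, pt_zero]
      rw [Int.toNat_of_nonneg (Int.emod_nonneg _ hNZ.ne')]
      exact (Int.mul_ediv_add_emod (w 0) S.N).symm
    · simp only [bp, pt_one]
      rw [Int.toNat_of_nonneg (Int.emod_nonneg _ hNZ.ne')]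
      exact (Int.mul_ediv_add_emod (w 1) S.N).symm

lemma bp_add_e0 {a b : ℕ} (z : Pt) : S.bp z a b + e0 = S.bp z (a + 1) b := by
  apply pt_ext
  · simp [bp]; ring
  · simp [bp]

lemma bp_add_e1 {a b : ℕ} (z : Pt) : S.bp z a b + e1 = S.bp z a (b + 1) := by
  apply pt_ext
  · simp [bp]
  · simp [bp]; ring

lemma bp_last_e0 {b : ℕ} (z : Pt) : S.bp z (S.N - 1) b + e0 = S.bp (z + e0) 0 b := by
  have hN := S.N_pos
  apply pt_ext
  · simp only [bp, Pi.add_apply, pt_zero, e0_zero, Nat.cast_zero]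
    rw [Nat.cast_sub (by omega)]
    push_cast
    ring
  · simp [bp]

lemma bp_last_e1 {a : ℕ} (z : Pt) : S.bp z a (S.N - 1) + e1 = S.bp (z + e1) a 0 := by
  have hN := S.N_pos
  apply pt_ext
  · simp [bp]
  · simp only [bp, Pi.add_apply, pt_one, e1_one, Nat.cast_zero]
    rw [Nat.cast_sub (by omega)]
    push_cast
    ring

lemma sub_mem {y : Cfg n} (hy : y ∈ XT S) : S.sub y ∈ XT S := by
  have hN := S.N_pos
  intro w
  obtain ⟨z, a, b, ha, hb, rfl⟩ := S.exists_bp w
  constructor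
  · rw [S.sub_bp ha hb]
    by_cases h : a + 1 < S.N
    · rw [S.bp_add_e0, S.sub_bp h hb]
      exact S.S_H _ _ _ h hb
    · have ha' : a = S.N - 1 := by omega
      subst ha'
      rw [S.bp_last_e0, S.sub_bp hN hb]
      exact (S.H_face _ _).1 (hy z).1 b hb
  · rw [S.sub_bp ha hb]
    by_cases h : b + 1 < S.N
    · rw [S.bp_add_e1, S.sub_bp ha h]
      exact S.S_V _ _ _ ha h
    · have hb' : b = S.N - 1 := by omega
      subst hb'
      rw [S.bp_last_e1, S.sub_bp ha hN]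
      exact (S.V_face _ _).1 (hy z).2 a ha

/-- position zero -/
def P0 (x : Cfg n) : Prop := S.px (x 0) = 0 ∧ S.py (x 0) = 0

lemma pos_bp {x : Cfg n} (hx : x ∈ XT S) (h0 : S.P0 x) (z : Pt) {a b : ℕ} (ha : a < S.N)
    (hb : b < S.N) : S.px (x (S.bp z a b)) = a ∧ S.py (x (S.bp z a b)) = b := by
  have h := S.pos_add hx 0 (S.bp z a b)
  rw [zero_add, h0.1, h0.2] at h
  have hN := S.N_pos
  have hNZ : (0 : ℤ) < S.N := by exact_mod_cast hN
  have ha' : (a : ℤ) < S.N := by exact_mod_cast ha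
  have hb' : (b : ℤ) < S.N := by exact_mod_cast hb
  simp only [Nat.cast_zero, zero_add] at h
  have e1 : (S.bp z a b) 0 % S.N = a := by
    simp only [bp, pt_zero]
    rw [Int.mul_add_emod_self_left, Int.emod_eq_of_lt (by positivity) ha']
  have e2 : (S.bp z a b) 1 % S.N = b := by
    simp only [bp, pt_one]
    rw [Int.mul_add_emod_self_left, Int.emod_eq_of_lt (by positivity) hb']
  rw [e1, e2] at h
  exact ⟨by exact_mod_cast h.1, by exact_mod_cast h.2⟩

lemma D_spec {x : Cfg n} (hx : x ∈ XT S) (h0 : S.P0 x) (z : Pt) {a b : ℕ} (ha : a < S.N)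
    (hb : b < S.N) : x (S.bp z a b) = S.S (S.D x z) a b := by
  have h : ∃ u, ∀ a b, a < S.N → b < S.N → x (S.bp z a b) = S.S u a b := by
    apply S.force (fun a b => x (S.bp z a b))
    · intro a b ha hb
      exact S.pos_bp hx h0 z ha hb
    · intro a b ha hb
      rw [← S.bp_add_e0]
      exact (hx _).1
    · intro a b ha hb
      rw [← S.bp_add_e1]
      exact (hx _).2
  simp only [D, Dval]
  rw [dif_pos h]
  exact h.choose_spec a b ha hb

lemma sub_D {x : Cfg n} (hx : x ∈ XT S) (h0 : S.P0 x) : S.sub (S.D x) = x := by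
  funext w
  obtain ⟨z, a, b, ha, hb, rfl⟩ := S.exists_bp w
  rw [S.sub_bp ha hb, S.D_spec hx h0 z ha hb]

lemma D_mem {x : Cfg n} (hx : x ∈ XT S) (h0 : S.P0 x) : S.D x ∈ XT S := by
  have hN := S.N_pos
  intro z
  constructor
  · rw [S.H_face]
    intro b hb
    rw [← S.D_spec hx h0 z (by omega) hb, ← S.D_spec hx h0 (z + e0) hN hb, ← S.bp_last_e0]
    exact (hx _).1
  · rw [S.V_face]
    intro b hb
    rw [← S.D_spec hx h0 z hb (by omega), ← S.D_spec hx h0 (z + e1) hb hN, ← S.bp_last_e1]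
    exact (hx _).2

lemma D_sub {y : Cfg n} (hy : y ∈ XT S) : S.D (S.sub y) = y := by
  have hx := S.sub_mem hy
  have hN := S.N_pos
  have h0 : S.P0 (S.sub y) := by
    have h := S.sub_bp hN hN y 0
    have e : S.bp 0 0 0 = 0 := pt_ext (by simp [bp]) (by simp [bp])
    rw [e] at h
    rw [P0, h]
    exact ⟨S.S_px _ _ _ hN hN, S.S_py _ _ _ hN hN⟩
  funext z
  apply S.S_inj
  intro a b ha hb
  rw [← S.D_spec hx h0 z ha hb, S.sub_bp ha hb]

lemma P0_sub {y : Cfg n} : S.P0 (S.sub y) := by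
  have hN := S.N_pos
  have h := S.sub_bp hN hN y 0
  have e : S.bp 0 0 0 = 0 := pt_ext (by simp [bp]) (by simp [bp])
  rw [e] at h
  rw [P0, h]
  exact ⟨S.S_px _ _ _ hN hN, S.S_py _ _ _ hN hN⟩

end SS

end Pool.Agent.MPa03d92
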