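import Pool.Agent.Work.MP_a03d92_mp.B.Local

/-!
# Part B : interactions, energies, site functions
-/

set_option autoImplicit false

open MeasureTheory Function
open scoped BigOperators Topology

namespace Pool.Agent.MPa03d92

variable {n : ℕ}

/-- admissible interactions, literally as in the frozen statement -/
def Adm (Φ : Finset (Fin 2 → ℤ) → ((Fin 2 → ℤ) → Fin n) → ℝ) : Prop :=
  (∀ (Λ : Finset (Fin 2 → ℤ)) (X Y : (Fin 2 → ℤ) → Fin n),
      (∀ i ∈ Λ, X i = Y i) → Φ Λ X = Φ Λ Y) ∧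
  (∀ (Λ : Finset (Fin 2 → ℤ)) (X : (Fin 2 → ℤ) → Fin n) (a : Fin 2 → ℤ),
      Φ (Λ.image (fun i => i + a)) (fun i => X (i - a)) = Φ Λ X) ∧
  (∃ R : ℕ, ∀ Λ : Finset (Fin 2 → ℤ),
      (∃ i ∈ Λ, ∃ j ∈ Λ, ∃ k : Fin 2, (R : ℤ) < |i k - j k|) →
      ∀ X : (Fin 2 → ℤ) → Fin n, Φ Λ X = 0)

/-- ground state measures, literally as in the frozen statement -/
def GSM (Φ : Finset (Fin 2 → ℤ) → ((Fin 2 → ℤ) → Fin n) → ℝ)
    (μ : Measure ((Fin 2 → ℤ) → Fin n)) : Prop :=
  IsProbabilityMeasure μ ∧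
  (∀ a : Fin 2 → ℤ,
      μ.map (fun X : (Fin 2 → ℤ) → Fin n => fun i => X (i - a)) = μ) ∧
  (∀ᵐ X ∂μ, ∀ Y : (Fin 2 → ℤ) → Fin n, {i | Y i ≠ X i}.Finite →
      0 ≤ ∑ᶠ Λ : Finset (Fin 2 → ℤ), (Φ Λ Y - Φ Λ X))

/-- box -/
noncomputable def box (m : ℕ) : Finset Pt := Finset.Icc (fun _ => -(m : ℤ)) (fun _ => (m : ℤ))

lemma mem_box {m : ℕ} {z : Pt} : z ∈ box m ↔ |z 0| ≤ m ∧ |z 1| ≤ m := by
  simp only [box, Finset.mem_Icc, Pi.le_def, Fin.forall_fin_two, abs_le]
  tauto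

lemma card_box (m : ℕ) : (box m).card = (2 * m + 1) * (2 * m + 1) := by
  simp only [box, Pi.card_Icc, Finset.prod_const, Finset.card_univ, Fintype.card_fin, Int.card_Icc]
  have : ((m : ℤ) + 1 - -(m : ℤ)).toNat = 2 * m + 1 := by omega
  rw [this]
  ring

lemma box_mono {m m' : ℕ} (h : m ≤ m') : box m ⊆ box m' := by
  intro z hz
  rw [mem_box] at hz ⊢
  have : (m : ℤ) ≤ m' := by exact_mod_cast h
  constructor <;> omega

lemma Adm.shift {Φ : Finset Pt → Cfg n → ℝ} (h : Adm Φ) (Λ : Finset Pt) (X : Cfg n) (z : Pt) :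
    Φ (Λ.image (fun i => i + z)) X = Φ Λ (sh z X) := by
  have := h.2.1 Λ (sh z X) z
  have e : (fun i => sh z X (i - z)) = X := by
    funext i
    simp
  rwa [e] at this

open Classical in
/-- the site function of an interaction -/
noncomputable def site (Φ : Finset Pt → Cfg n → ℝ) (X : Cfg n) : ℝ :=
  ∑ᶠ Λ : Finset Pt, if (0 : Pt) ∈ Λ then Φ Λ X / Λ.card else 0

lemma Adm.subset {Φ : Finset Pt → Cfg n → ℝ} {R : ℕ} (hR : ∀ Λ : Finset Pt,
      (∃ i ∈ Λ, ∃ j ∈ Λ, ∃ k : Fin 2, (R : ℤ) < |i k - j k|) → ∀ X : Cfg n, Φ Λ X = 0)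
    {Λ : Finset Pt} {z : Pt} (hz : z ∈ Λ) {X : Cfg n} (hne : Φ Λ X ≠ 0) :
    ∀ w ∈ Λ, w - z ∈ box R := by
  intro w hw
  rw [mem_box]
  constructor
  · by_contra hcon
    push Not at hcon
    exact hne (hR Λ ⟨w, hw, z, hz, 0, hcon⟩ X)
  · by_contra hcon
    push Not at hcon
    exact hne (hR Λ ⟨w, hw, z, hz, 1, hcon⟩ X)

open Classical in
lemma site_eq_sum {Φ : Finset Pt → Cfg n → ℝ} {R : ℕ} (hR : ∀ Λ : Finset Pt,
      (∃ i ∈ Λ, ∃ j ∈ Λ, ∃ k : Fin 2, (R : ℤ) < |i k - j k|) → ∀ X : Cfg n, Φ Λ X = 0) (X : Cfg n) :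
    site Φ X = ∑ Λ ∈ (box R).powerset, if (0 : Pt) ∈ Λ then Φ Λ X / Λ.card else 0 := by
  unfold site
  apply finsum_eq_sum_of_support_subset
  intro Λ hΛ
  simp only [mem_support] at hΛ
  by_cases h0 : (0 : Pt) ∈ Λ
  · rw [if_pos h0] at hΛ
    have hne : Φ Λ X ≠ 0 := fun h => hΛ (by rw [h, zero_div])
    have := Adm.subset hR h0 hne
    simp only [Finset.coe_powerset, Set.mem_preimage, Set.mem_powerset_iff, Finset.coe_subset]
    intro w hw
    simpa using this w hw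
  · rw [if_neg h0] at hΛ
    exact absurd rfl hΛ

lemma Adm.loc_site {Φ : Finset Pt → Cfg n → ℝ} (h : Adm Φ) : Loc (site Φ) := by
  classical
  obtain ⟨h1, h2, R, hR⟩ := h
  refine ⟨box R, fun x y hxy => ?_⟩
  rw [site_eq_sum hR, site_eq_sum hR]
  apply Finset.sum_congr rfl
  intro Λ hΛ
  rw [Finset.mem_powerset] at hΛ
  rw [h1 Λ x y (fun i hi => hxy i (hΛ hi))]

open Classical in
lemma Adm.site_sh {Φ : Finset Pt → Cfg n → ℝ} (h : Adm Φ) (z : Pt) (X : Cfg n) :
    site Φ (sh z X) = ∑ᶠ Λ : Finset Pt, if z ∈ Λ then Φ Λ X / Λ.card else 0 := by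
  unfold site
  rw [← finsum_comp_equiv (Equiv.finsetCongr (Equiv.addRight z))
    (f := fun Λ => if z ∈ Λ then Φ Λ X / Λ.card else 0)]
  apply finsum_congr
  intro Λ
  have e : (Equiv.finsetCongr (Equiv.addRight z)) Λ = Λ.image (fun i => i + z) := by
    ext w
    simp
  have e2 : (Equiv.finsetCongr (Equiv.addRight z) Λ).card = Λ.card := by simp
  rw [e2, e, h.shift]
  have e3 : z ∈ Λ.image (fun i => i + z) ↔ (0 : Pt) ∈ Λ := by
    simp
  simp only [e3]

open Classical in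
lemma Adm.supp_site {Φ : Finset Pt → Cfg n → ℝ} (h : Adm Φ) (z : Pt) (X : Cfg n) :
    HasFiniteSupport (fun Λ : Finset Pt => if z ∈ Λ then Φ Λ X / Λ.card else 0) := by
  obtain ⟨h1, h2, R, hR⟩ := h
  apply Set.Finite.subset ((box R).image (fun w => w + z)).powerset.finite_toSet
  intro Λ hΛ
  simp only [mem_support] at hΛ
  by_cases h0 : z ∈ Λ
  · rw [if_pos h0] at hΛ
    have hne : Φ Λ X ≠ 0 := fun h => hΛ (by rw [h, zero_div])
    have := Adm.subset hR h0 hne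
    simp only [Finset.mem_coe, Finset.mem_powerset]
    intro w hw
    rw [Finset.mem_image]
    exact ⟨w - z, this w hw, by abel⟩
  · rw [if_neg h0] at hΛ
    exact absurd rfl hΛ

/-- the relative Hamiltonian is the sum of the differences of the site function -/
theorem Adm.energy {Φ : Finset Pt → Cfg n → ℝ} (h : Adm Φ) {X Y : Cfg n}
    (hXY : {i | Y i ≠ X i}.Finite) :
    HasFiniteSupport (fun Λ : Finset Pt => Φ Λ Y - Φ Λ X) ∧
    ∑ᶠ Λ : Finset Pt, (Φ Λ Y - Φ Λ X) = sd (site Φ) X Y := by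
  classical
  obtain ⟨R, hR⟩ := h.2.2
  let g : Finset Pt → Pt → ℝ := fun Λ z => if z ∈ Λ then (Φ Λ Y - Φ Λ X) / Λ.card else 0
  let A : Finset Pt := hXY.toFinset.biUnion (fun d => (box R).image (fun w => w + d))
  -- nonzero differences live on subsets of `A`
  have hA : ∀ Λ : Finset Pt, Φ Λ Y - Φ Λ X ≠ 0 → Λ ⊆ A ∧ Λ.Nonempty := by
    intro Λ hΛ
    have h1 : ∃ d ∈ Λ, Y d ≠ X d := by
      by_contra hcon
      push Not at hcon
      apply hΛ
      rw [h.1 Λ Y X hcon, sub_self]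
    obtain ⟨d, hd, hdne⟩ := h1
    refine ⟨?_, ⟨d, hd⟩⟩
    have h2 : ∀ w ∈ Λ, w - d ∈ box R := by
      by_cases hY : Φ Λ Y = 0
      · have hX : Φ Λ X ≠ 0 := fun hX => hΛ (by rw [hX, hY, sub_zero])
        exact Adm.subset hR hd hX
      · exact Adm.subset hR hd hY
    intro w hw
    simp only [A, Finset.mem_biUnion, Set.Finite.mem_toFinset, Finset.mem_image]
    exact ⟨d, hdne, w - d, h2 w hw, by abel⟩
  have hfin : HasFiniteSupport (fun Λ : Finset Pt => Φ Λ Y - Φ Λ X) := by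
    apply Set.Finite.subset A.powerset.finite_toSet
    intro Λ hΛ
    simp only [Finset.mem_coe, Finset.mem_powerset]
    exact (hA Λ hΛ).1
  refine ⟨hfin, ?_⟩
  have e1 : ∑ᶠ Λ : Finset Pt, (Φ Λ Y - Φ Λ X) = ∑ Λ ∈ A.powerset, (Φ Λ Y - Φ Λ X) := by
    apply finsum_eq_sum_of_support_subset
    intro Λ hΛ
    simp only [Finset.mem_coe, Finset.mem_powerset]
    exact (hA Λ hΛ).1
  have e2 : ∀ Λ ∈ A.powerset, Φ Λ Y - Φ Λ X = ∑ z ∈ A, g Λ z := by
    intro Λ hΛ
    rw [Finset.mem_powerset] at hΛ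
    by_cases h0 : Φ Λ Y - Φ Λ X = 0
    · simp only [g, h0, zero_div, ite_self, Finset.sum_const_zero]
    · have hne := (hA Λ h0).2
      simp only [g]
      rw [← Finset.sum_filter, Finset.sum_const, Finset.filter_mem_eq_inter,
        Finset.inter_eq_right.2 hΛ, nsmul_eq_mul]
      have : (Λ.card : ℝ) ≠ 0 := by exact_mod_cast hne.card_pos.ne'
      field_simp
  have e3 : ∀ z, dff (site Φ) X Y z = ∑ Λ ∈ A.powerset, g Λ z := by
    intro z
    simp only [dff]
    rw [h.site_sh, h.site_sh, ← finsum_sub_distrib (h.supp_site z Y) (h.supp_site z X)]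
    have : ∑ᶠ Λ : Finset Pt, ((if z ∈ Λ then Φ Λ Y / Λ.card else 0) -
        (if z ∈ Λ then Φ Λ X / Λ.card else 0)) = ∑ᶠ Λ : Finset Pt, g Λ z := by
      apply finsum_congr
      intro Λ
      simp only [g]
      split_ifs
      · rw [sub_div]
      · rw [sub_zero]
    rw [this]
    apply finsum_eq_sum_of_support_subset
    intro Λ hΛ
    simp only [Finset.mem_coe, Finset.mem_powerset]
    apply (hA Λ _).1
    intro h0
    apply hΛ
    simp only [g, h0, zero_div, ite_self]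
  have e4 : sd (site Φ) X Y = ∑ z ∈ A, ∑ Λ ∈ A.powerset, g Λ z := by
    unfold sd
    rw [finsum_eq_sum_of_support_subset (s := A)]
    · apply Finset.sum_congr rfl
      intro z _
      exact e3 z
    · intro z hz
      rw [mem_support, e3] at hz
      obtain ⟨Λ, hΛ, hne⟩ := Finset.exists_ne_zero_of_sum_ne_zero hz
      rw [Finset.mem_powerset] at hΛ
      by_cases hzΛ : z ∈ Λ
      · exact hΛ hzΛ
      · exact absurd (by simp only [g]; rw [if_neg hzΛ]) hne
  rw [e1, e4, Finset.sum_comm]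
  exact Finset.sum_congr rfl e2

namespace SS

variable (S : SS n)

open Classical in
/-- the tile interaction -/
noncomputable def Φ0 (Λ : Finset Pt) (X : Cfg n) : ℝ :=
  if ∃ z : Pt, (Λ = {z, z + e0} ∧ ¬ S.H (X z) (X (z + e0))) ∨ (Λ = {z, z + e1} ∧ ¬ S.V (X z) (X (z + e1)))
  then 1 else 0

lemma Φ0_nonneg (Λ : Finset Pt) (X : Cfg n) : 0 ≤ S.Φ0 Λ X := by
  unfold Φ0
  split_ifs <;> norm_num

lemma Φ0_XT {X : Cfg n} (hX : X ∈ XT S) (Λ : Finset Pt) : S.Φ0 Λ X = 0 := by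
  unfold Φ0
  rw [if_neg]
  rintro ⟨z, (⟨_, h⟩ | ⟨_, h⟩)⟩
  · exact h (hX z).1
  · exact h (hX z).2

lemma adm_Φ0 : Adm S.Φ0 := by
  classical
  refine ⟨?_, ?_, 1, ?_⟩
  · intro Λ X Y hXY
    have key : ∀ X Y : Cfg n, (∀ i ∈ Λ, X i = Y i) →
      (∃ z : Pt, (Λ = {z, z + e0} ∧ ¬ S.H (X z) (X (z + e0))) ∨ (Λ = {z, z + e1} ∧ ¬ S.V (X z) (X (z + e1)))) →
      (∃ z : Pt, (Λ = {z, z + e0} ∧ ¬ S.H (Y z) (Y (z + e0))) ∨ (Λ = {z, z + e1} ∧ ¬ S.V (Y z) (Y (z + e1)))) := by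
      intro X Y hXY
      rintro ⟨z, (⟨h1, h2⟩ | ⟨h1, h2⟩)⟩
      · refine ⟨z, Or.inl ⟨h1, ?_⟩⟩
        rw [← hXY z (by rw [h1]; simp), ← hXY (z + e0) (by rw [h1]; simp)]
        exact h2
      · refine ⟨z, Or.inr ⟨h1, ?_⟩⟩
        rw [← hXY z (by rw [h1]; simp), ← hXY (z + e1) (by rw [h1]; simp)]
        exact h2
    unfold Φ0
    exact if_congr ⟨key X Y hXY, key Y X (fun i hi => (hXY i hi).symm)⟩ rfl rfl
  · intro Λ X a
    have himg : ∀ z e : Pt, Λ.image (fun i => i + a) = {z, z + e} ↔ Λ = {z - a, z - a + e} := by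
      intro z e
      have hinj : Function.Injective (fun i : Pt => i + a) := add_left_injective a
      have : ({z, z + e} : Finset Pt) = ({z - a, z - a + e} : Finset Pt).image (fun i => i + a) := by
        rw [Finset.image_insert, Finset.image_singleton]
        congr 1
        · abel
        · congr 1
          abel
      rw [this]
      exact Finset.image_injective hinj |>.eq_iff
    unfold Φ0
    refine if_congr ⟨?_, ?_⟩ rfl rfl
    · rintro ⟨z, (⟨h1, h2⟩ | ⟨h1, h2⟩)⟩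
      · refine ⟨z - a, Or.inl ⟨(himg z e0).1 h1, ?_⟩⟩
        beta_reduce at h2
        rwa [show z + e0 - a = z - a + e0 by abel] at h2
      · refine ⟨z - a, Or.inr ⟨(himg z e1).1 h1, ?_⟩⟩
        beta_reduce at h2
        rwa [show z + e1 - a = z - a + e1 by abel] at h2
    · rintro ⟨z, (⟨h1, h2⟩ | ⟨h1, h2⟩)⟩
      · refine ⟨z + a, Or.inl ⟨(himg (z + a) e0).2 ?_, ?_⟩⟩
        · rw [add_sub_cancel_right]
          exact h1
        · beta_reduce
          rw [show z + a - a = z by abel, show z + a + e0 - a = z + e0 by abel]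
          exact h2
      · refine ⟨z + a, Or.inr ⟨(himg (z + a) e1).2 ?_, ?_⟩⟩
        · rw [add_sub_cancel_right]
          exact h1
        · beta_reduce
          rw [show z + a - a = z by abel, show z + a + e1 - a = z + e1 by abel]
          exact h2
  · rintro Λ ⟨i, hi, j, hj, k, hk⟩ X
    unfold Φ0
    rw [if_neg]
    rintro ⟨z, (⟨h1, _⟩ | ⟨h1, _⟩)⟩
    · rw [h1] at hi hj
      simp only [Finset.mem_insert, Finset.mem_singleton] at hi hj
      rcases hi with rfl | rfl <;> rcases hj with rfl | rfl <;> fin_cases k <;> simp at hk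
    · rw [h1] at hi hj
      simp only [Finset.mem_insert, Finset.mem_singleton] at hi hj
      rcases hi with rfl | rfl <;> rcases hj with rfl | rfl <;> fin_cases k <;> simp at hk

/-- the bonds at the origin are valid -/
def Good (X : Cfg n) : Prop := S.H (X 0) (X e0) ∧ S.V (X 0) (X e1)

lemma site_nonneg (X : Cfg n) : 0 ≤ site S.Φ0 X := by
  classical
  unfold site
  apply finsum_nonneg
  intro Λ
  split_ifs
  · exact div_nonneg (S.Φ0_nonneg Λ X) (by positivity)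
  · exact le_rfl

lemma site_bad {X : Cfg n} (h : ¬ S.Good X) : (1 : ℝ) / 2 ≤ site S.Φ0 X := by
  classical
  obtain ⟨R, hR⟩ := S.adm_Φ0.2.2
  have hterm : ∀ Λ : Finset Pt, 0 ≤ (if (0 : Pt) ∈ Λ then S.Φ0 Λ X / Λ.card else 0) := by
    intro Λ
    split_ifs
    · exact div_nonneg (S.Φ0_nonneg Λ X) (by positivity)
    · exact le_rfl
  have key : ∀ e : Pt, e ≠ 0 → S.Φ0 {0, 0 + e} X = 1 → (1 : ℝ) / 2 ≤ site S.Φ0 X := by
    intro e he h1
    have h2 : (if (0 : Pt) ∈ ({0, 0 + e} : Finset Pt) then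
        S.Φ0 {0, 0 + e} X / (({0, 0 + e} : Finset Pt)).card else 0) = 1 / 2 := by
      rw [if_pos (by simp), h1]
      have : (({0, 0 + e} : Finset Pt)).card = 2 := by
        rw [Finset.card_pair]
        rw [zero_add]
        exact he.symm
      rw [this]
      norm_num
    rw [← h2]
    have h3 := S.adm_Φ0.supp_site 0 X
    unfold site
    exact single_le_finsum ({0, 0 + e} : Finset Pt) h3 hterm
  have he0 : e0 ≠ 0 := fun h => by
    have := congrFun h 0
    simp at this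
  have he1 : e1 ≠ 0 := fun h => by
    have := congrFun h 1
    simp at this
  by_cases hH : S.H (X 0) (X e0)
  · have hV : ¬ S.V (X 0) (X e1) := fun hV => h ⟨hH, hV⟩
    apply key e1 he1
    unfold Φ0
    rw [if_pos]
    exact ⟨0, Or.inr ⟨rfl, by rwa [zero_add]⟩⟩
  · apply key e0 he0
    unfold Φ0
    rw [if_pos]
    exact ⟨0, Or.inl ⟨rfl, by rwa [zero_add]⟩⟩

lemma site_XT {X : Cfg n} (hX : X ∈ XT S) : site S.Φ0 X = 0 := by
  classical
  unfold site
  have : ∀ Λ : Finset Pt, (if (0 : Pt) ∈ Λ then S.Φ0 Λ X / Λ.card else 0) = 0 := by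
    intro Λ
    rw [S.Φ0_XT hX, zero_div, ite_self]
  simp only [this, finsum_zero]

lemma mem_XT_iff {X : Cfg n} : X ∈ XT S ↔ ∀ z, S.Good (sh z X) := by
  constructor
  · intro h z
    have := h z
    simp only [Good, sh_apply, zero_add]
    rwa [add_comm e0 z, add_comm e1 z]
  · intro h z
    have := h z
    simp only [Good, sh_apply, zero_add] at this
    rwa [add_comm e0 z, add_comm e1 z] at this

end SS

end Pool.Agent.MPa03d92
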