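import Pool.Agent.Work.MP_a03d92_mp.B.Energy

/-!
# Part B : nonemptiness of the tiling space, aperiodicity, existence of an invariant measure
-/

set_option autoImplicit false

open MeasureTheory Function Filter
open scoped BigOperators Topology ENNReal

namespace Pool.Agent.MPa03d92

variable {n : ℕ}

namespace SS

variable (S : SS n)

/-- a configuration valid on `[0, L)²` -/
def Patch (L : ℕ) (x : Cfg n) : Prop := ∀ a b : ℕ,
  (a + 1 < L → b < L → S.H (x (pt a b)) (x (pt a b + e0))) ∧
  (a < L → b + 1 < L → S.V (x (pt a b)) (x (pt a b + e1)))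

lemma patch_sub {L : ℕ} {y : Cfg n} (h : S.Patch L y) : S.Patch (S.N * L) (S.sub y) := by
  have hN := S.N_pos
  intro a b
  have ea : a = S.N * (a / S.N) + a % S.N := (Nat.div_add_mod a S.N).symm
  have eb : b = S.N * (b / S.N) + b % S.N := (Nat.div_add_mod b S.N).symm
  set q := a / S.N with hq
  set r := a % S.N with hr
  set q' := b / S.N with hq'
  set r' := b % S.N with hr'
  have hrl : r < S.N := Nat.mod_lt _ hN
  have hrl' : r' < S.N := Nat.mod_lt _ hN
  have e : pt a b = S.bp (pt q q') r r' := by
    apply pt_ext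
    · simp only [bp, pt_zero]
      rw [ea]
      push_cast
      ring
    · simp only [bp, pt_one]
      rw [eb]
      push_cast
      ring
  have hdiv : ∀ {c Q R : ℕ}, c = S.N * Q + R → c < S.N * L → Q < L := by
    intro c Q R hc hlt
    by_contra hcon
    push Not at hcon
    have : S.N * L ≤ S.N * Q := Nat.mul_le_mul_left _ hcon
    omega
  rw [e]
  constructor
  · intro h1 h2
    have hqL : q < L := hdiv ea (by omega)
    have hqL' : q' < L := hdiv eb h2
    by_cases hlt : r + 1 < S.N
    · rw [S.bp_add_e0, S.sub_bp hrl hrl', S.sub_bp hlt hrl']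
      exact S.S_H _ _ _ hlt hrl'
    · have hr1 : r = S.N - 1 := by omega
      have hq1 : q + 1 < L := by
        apply hdiv (c := a + 1) (R := 0) _ h1
        rw [mul_add, mul_one, add_zero]
        omega
      rw [hr1, S.bp_last_e0, S.sub_bp (by omega) hrl', S.sub_bp hN hrl']
      exact (S.H_face _ _).1 ((h q q').1 hq1 hqL') _ hrl'
  · intro h1 h2
    have hqL : q < L := hdiv ea h1
    have hqL' : q' < L := hdiv eb (by omega)
    by_cases hlt : r' + 1 < S.N
    · rw [S.bp_add_e1, S.sub_bp hrl hrl', S.sub_bp hrl hlt]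
      exact S.S_V _ _ _ hrl hlt
    · have hr1 : r' = S.N - 1 := by omega
      have hq1 : q' + 1 < L := by
        apply hdiv (c := b + 1) (R := 0) _ h2
        rw [mul_add, mul_one, add_zero]
        omega
      rw [hr1, S.bp_last_e1, S.sub_bp hrl (by omega), S.sub_bp hrl hN]
      exact (S.V_face _ _).1 ((h q q').2 hqL hq1) _ hrl

lemma patch_mono {L L' : ℕ} (hL : L ≤ L') {x : Cfg n} (h : S.Patch L' x) : S.Patch L x := by
  intro a b
  exact ⟨fun h1 h2 => (h a b).1 (by omega) (by omega), fun h1 h2 => (h a b).2 (by omega) (by omega)⟩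

lemma exists_patch (L : ℕ) : ∃ x : Cfg n, S.Patch L x := by
  have h : ∀ k : ℕ, ∃ x : Cfg n, S.Patch (S.N ^ k) x := by
    intro k
    induction k with
    | zero =>
      refine ⟨fun _ => S.t0, fun a b => ⟨fun h1 _ => ?_, fun _ h1 => ?_⟩⟩
      · simp at h1
      · simp at h1
    | succ k ih =>
      obtain ⟨x, hx⟩ := ih
      refine ⟨S.sub x, ?_⟩
      have := S.patch_sub hx
      rwa [← pow_succ'] at this
  obtain ⟨x, hx⟩ := h L
  refine ⟨x, S.patch_mono ?_ hx⟩
  exact (Nat.lt_pow_self (by have := S.hN; omega)).le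

/-- configurations valid in a box -/
def C (m : ℕ) : Set (Cfg n) := {x | ∀ z ∈ box m, S.Good (sh z x)}

lemma continuous_sh (v : Pt) : Continuous (sh v : Cfg n → Cfg n) :=
  continuous_pi (fun _ => continuous_apply _)

lemma isClosed_good : IsClosed {x : Cfg n | S.Good x} := by
  have h : Continuous (fun x : Cfg n => (x 0, x e0, x e1)) := by fun_prop
  have : {x : Cfg n | S.Good x} = (fun x : Cfg n => (x 0, x e0, x e1)) ⁻¹'
      {p | S.H p.1 p.2.1 ∧ S.V p.1 p.2.2} := rfl
  rw [this]
  exact (isClosed_discrete _).preimage h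

lemma isClosed_C (m : ℕ) : IsClosed (S.C m) := by
  have : S.C m = ⋂ z ∈ box m, (sh z) ⁻¹' {x : Cfg n | S.Good x} := by
    ext x
    simp [C]
  rw [this]
  exact isClosed_biInter (fun z _ => S.isClosed_good.preimage (continuous_sh z))

lemma C_nonempty (m : ℕ) : (S.C m).Nonempty := by
  obtain ⟨x, hx⟩ := S.exists_patch (2 * m + 2)
  refine ⟨sh (pt m m) x, fun z hz => ?_⟩
  rw [mem_box, abs_le, abs_le] at hz
  obtain ⟨⟨h1, h2⟩, h3, h4⟩ := hz
  have e : z + pt m m = pt (((z 0 + m).toNat : ℕ) : ℤ) (((z 1 + m).toNat : ℕ) : ℤ) := by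
    apply pt_ext
    · simp only [Pi.add_apply, pt_zero]
      rw [Int.toNat_of_nonneg (by omega)]
    · simp only [Pi.add_apply, pt_one]
      rw [Int.toNat_of_nonneg (by omega)]
  have h5 := hx (z 0 + m).toNat (z 1 + m).toNat
  rw [← e] at h5
  simp only [Good, sh_apply, zero_add]
  rw [show e0 + z + pt m m = z + pt m m + e0 by abel, show e1 + z + pt m m = z + pt m m + e1 by abel]
  exact ⟨h5.1 (by omega) (by omega), h5.2 (by omega) (by omega)⟩

lemma XT_nonempty : (XT S).Nonempty := by
  have h := IsCompact.nonempty_iInter_of_sequence_nonempty_isCompact_isClosed (fun m => S.C m)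
    (fun m => fun x hx z hz => hx z (box_mono (Nat.le_succ m) hz))
    S.C_nonempty (S.isClosed_C 0).isCompact S.isClosed_C
  obtain ⟨x, hx⟩ := h
  refine ⟨x, S.mem_XT_iff.2 (fun z => ?_)⟩
  rw [Set.mem_iInter] at hx
  apply hx (|z 0| + |z 1|).toNat
  rw [mem_box]
  have h1 := abs_nonneg (z 0)
  have h2 := abs_nonneg (z 1)
  constructor <;> omega

/-- aperiodicity -/
lemma aperiodic (k : ℕ) : ∀ (x : Cfg n) (a : Pt), x ∈ XT S → sh a x = x → (|a 0| + |a 1|).toNat ≤ k →
    a = 0 := by
  have hN := S.hN
  have hNpos := S.N_pos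
  have hNZ : (0 : ℤ) < S.N := by exact_mod_cast hNpos
  induction k using Nat.strong_induction_on with
  | _ k ih =>
    intro x a hx hper hk
    by_contra hne
    -- shift to position zero
    obtain ⟨v, hv⟩ : ∃ v : Pt, S.P0 (sh v x) := by
      refine ⟨pt (-(S.px (x 0) : ℤ)) (-(S.py (x 0) : ℤ)), ?_⟩
      have := S.pos_add hx 0 (pt (-(S.px (x 0) : ℤ)) (-(S.py (x 0) : ℤ)))
      simp only [pt_zero, pt_one, add_neg_cancel, Int.zero_emod] at this
      simp only [P0, sh_apply]
      exact ⟨by exact_mod_cast this.1, by exact_mod_cast this.2⟩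
    set x' := sh v x with hx'
    have hx'm : x' ∈ XT S := XT_sh hx v
    have hper' : sh a x' = x' := by
      rw [hx', sh_sh, add_comm, ← sh_sh, hper]
    -- N divides a
    have hpos := S.pos_add hx'm 0 a
    have e1 : x' (0 + a) = x' 0 := by
      have := congrFun hper' 0
      simpa using this
    rw [e1, hv.1, hv.2] at hpos
    simp only [Nat.cast_zero, zero_add] at hpos
    have hd0 : (S.N : ℤ) ∣ a 0 := Int.dvd_of_emod_eq_zero hpos.1.symm
    have hd1 : (S.N : ℤ) ∣ a 1 := Int.dvd_of_emod_eq_zero hpos.2.symm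
    obtain ⟨c, hc⟩ := hd0
    obtain ⟨d, hd⟩ := hd1
    have ha : a = S.Nv (pt c d) := pt_ext (by simp [Nv, hc]) (by simp [Nv, hd])
    have hDper : sh (pt c d) (S.D x') = S.D x' := by
      rw [← S.D_sh, ← ha, hper']
    have hlt : (|c| + |d|).toNat < k := by
      have h0 : a 0 ≠ 0 ∨ a 1 ≠ 0 := by
        by_contra hcon
        push Not at hcon
        exact hne (pt_ext hcon.1 hcon.2)
      have hN2 : (2 : ℤ) ≤ S.N := by exact_mod_cast hN
      have h1 : |a 0| = S.N * |c| := by rw [hc, abs_mul, abs_of_pos hNZ]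
      have h2 : |a 1| = S.N * |d| := by rw [hd, abs_mul, abs_of_pos hNZ]
      have hc0 := abs_nonneg c
      have hd0 := abs_nonneg d
      have h3 : 2 * (|c| + |d|) ≤ |a 0| + |a 1| := by
        rw [h1, h2]
        nlinarith
      have h4 : 0 < |a 0| + |a 1| := by
        rcases h0 with h | h
        · have := abs_pos.2 h
          have := abs_nonneg (a 1)
          omega
        · have := abs_pos.2 h
          have := abs_nonneg (a 0)
          omega
      omega
    have h0 := ih _ hlt (S.D x') (pt c d) (S.D_mem hx'm hv) hDper (by simp)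
    apply hne
    have hc0 : c = 0 := by
      have := congrFun h0 0
      simpa using this
    have hd0 : d = 0 := by
      have := congrFun h0 1
      simpa using this
    exact pt_ext (by rw [hc, hc0]; simp) (by rw [hd, hd0]; simp)

end SS

/-- measures that agree on local functions are equal -/
lemma ext_loc {μ ν : Measure (Cfg n)} [IsProbabilityMeasure μ] [IsProbabilityMeasure ν]
    (h : ∀ f : Cfg n → ℝ, Loc f → ∫ x, f x ∂μ = ∫ x, f x ∂ν) : μ = ν := by
  classical
  have key : ∀ I : Finset Pt, μ.map I.restrict = ν.map I.restrict := by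
    intro I
    have hmeas : Measurable (I.restrict : Cfg n → (I → Fin n)) :=
      measurable_pi_lambda _ (fun _ => measurable_pi_apply _)
    apply Measure.ext_of_singleton
    intro p
    rw [Measure.map_apply hmeas (measurableSet_singleton p),
      Measure.map_apply hmeas (measurableSet_singleton p)]
    set A : Set (Cfg n) := I.restrict ⁻¹' {p} with hA
    have hAm : MeasurableSet A := hmeas (measurableSet_singleton p)
    have hloc : Loc (A.indicator (1 : Cfg n → ℝ)) := by
      refine ⟨I, fun x y hxy => ?_⟩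
      have e : x ∈ A ↔ y ∈ A := by
        simp only [hA, Set.mem_preimage, Set.mem_singleton_iff]
        have : (I.restrict x : I → Fin n) = I.restrict y := by
          funext i
          exact hxy i i.2
        rw [this]
      simp only [Set.indicator_apply, e, Pi.one_apply]
    have h1 := h _ hloc
    rw [integral_indicator_one hAm, integral_indicator_one hAm] at h1
    rw [measureReal_def, measureReal_def, ENNReal.toReal_eq_toReal_iff' (measure_ne_top _ _)
      (measure_ne_top _ _)] at h1
    exact h1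
  have h1 : IsProjectiveLimit μ (fun I => ν.map (I.restrict : Cfg n → (I → Fin n))) := fun I => key I
  have h2 : IsProjectiveLimit ν (fun I => ν.map (I.restrict : Cfg n → (I → Fin n))) := fun I => rfl
  exact h1.unique h2

/-- sum over a shifted box -/
lemma sum_box_shift (g : Pt → ℝ) (C : ℝ) (hC : ∀ z, |g z| ≤ C) (v : Pt) (m k : ℕ) (hv : v ∈ box m)
    (hmk : m ≤ k) : |∑ z ∈ box k, g (z + v) - ∑ z ∈ box k, g z| ≤
      2 * C * ((box k).card - (box (k - m)).card) := by
  classical
  set A := (box k).image (fun z => z + v) with hAdef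
  have hinj : Set.InjOn (fun z : Pt => z + v) (box k) := fun a _ b _ h => add_right_cancel h
  have e1 : ∑ z ∈ box k, g (z + v) = ∑ z ∈ A, g z := by
    rw [hAdef, Finset.sum_image hinj]
  have hcardA : A.card = (box k).card := by
    rw [hAdef, Finset.card_image_of_injOn hinj]
  set I := box (k - m) with hI
  have hIA : I ⊆ A := by
    intro z hz
    rw [hAdef, Finset.mem_image]
    refine ⟨z - v, ?_, by abel⟩
    rw [hI, mem_box, abs_le, abs_le] at hz
    rw [mem_box, abs_le, abs_le] at hv
    rw [mem_box, abs_le, abs_le]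
    push_cast [Nat.cast_sub hmk] at hz
    simp only [Pi.sub_apply]
    omega
  have hIB : I ⊆ box k := box_mono (Nat.sub_le _ _)
  have hCnn : 0 ≤ C := (abs_nonneg _).trans (hC 0)
  rw [e1, ← Finset.sum_sdiff hIA, ← Finset.sum_sdiff hIB]
  have e2 : (∑ z ∈ A \ I, g z + ∑ z ∈ I, g z) - (∑ z ∈ box k \ I, g z + ∑ z ∈ I, g z) =
      ∑ z ∈ A \ I, g z - ∑ z ∈ box k \ I, g z := by ring
  rw [e2]
  have b1 : |∑ z ∈ A \ I, g z| ≤ C * ((box k).card - I.card) := by
    refine (Finset.abs_sum_le_sum_abs _ _).trans ?_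
    refine (Finset.sum_le_sum (fun z _ => hC z)).trans ?_
    rw [Finset.sum_const, Finset.card_sdiff_of_subset hIA, hcardA, nsmul_eq_mul,
      Nat.cast_sub (Finset.card_le_card hIB)]
    linarith
  have b2 : |∑ z ∈ box k \ I, g z| ≤ C * ((box k).card - I.card) := by
    refine (Finset.abs_sum_le_sum_abs _ _).trans ?_
    refine (Finset.sum_le_sum (fun z _ => hC z)).trans ?_
    rw [Finset.sum_const, Finset.card_sdiff_of_subset hIB, nsmul_eq_mul,
      Nat.cast_sub (Finset.card_le_card hIB)]
    linarith
  calc |∑ z ∈ A \ I, g z - ∑ z ∈ box k \ I, g z|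
      ≤ |∑ z ∈ A \ I, g z| + |∑ z ∈ box k \ I, g z| := abs_sub _ _
    _ ≤ 2 * C * ((box k).card - I.card) := by linarith

lemma card_ratio (m : ℕ) :
    Tendsto (fun k : ℕ => (((box k).card : ℝ) - (box (k - m)).card) / (box k).card) atTop (𝓝 0) := by
  have h1 : Tendsto (fun k : ℕ => (4 * m : ℝ) / (2 * k + 1)) atTop (𝓝 0) := by
    apply Tendsto.div_atTop tendsto_const_nhds
    apply tendsto_atTop_add_const_right
    apply Tendsto.const_mul_atTop (by norm_num)
    exact tendsto_natCast_atTop_atTop
  refine squeeze_zero' ?_ ?_ h1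
  · apply Eventually.of_forall
    intro k
    apply div_nonneg
    · rw [sub_nonneg]
      exact_mod_cast Finset.card_le_card (box_mono (Nat.sub_le _ _))
    · positivity
  · filter_upwards [eventually_ge_atTop m] with k hk
    rw [card_box, card_box]
    push_cast [Nat.cast_sub hk]
    rw [div_le_div_iff₀ (by positivity) (by positivity)]
    have hm : (0 : ℝ) ≤ m := by positivity
    have hk' : (m : ℝ) ≤ k := by exact_mod_cast hk
    nlinarith [mul_nonneg hm (by positivity : (0 : ℝ) ≤ 2 * k + 1), mul_nonneg (mul_nonneg hm hm) (by positivity : (0 : ℝ) ≤ 2 * (k : ℝ) + 1)]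

/-- empirical measures along an orbit -/
noncomputable def emp (x0 : Cfg n) (k : ℕ) : Measure (Cfg n) :=
  ((box k).card : ℝ≥0∞)⁻¹ • ∑ z ∈ box k, Measure.dirac (sh z x0)

lemma card_box_ne (k : ℕ) : (box k).card ≠ 0 := by
  rw [card_box]
  positivity

instance (x0 : Cfg n) (k : ℕ) : IsProbabilityMeasure (emp x0 k) := by
  constructor
  have h := card_box_ne k
  simp only [emp, Measure.smul_apply, Measure.finsetSum_apply, measure_univ, Finset.sum_const,
    nsmul_eq_mul, mul_one, smul_eq_mul]
  exact ENNReal.inv_mul_cancel (by exact_mod_cast h) (ENNReal.natCast_ne_top _)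

lemma integral_emp (x0 : Cfg n) (k : ℕ) {f : Cfg n → ℝ} (hf : Loc f) :
    ∫ x, f x ∂(emp x0 k) = ((box k).card : ℝ)⁻¹ * ∑ z ∈ box k, f (sh z x0) := by
  rw [emp, integral_smul_measure, integral_finsetSum_measure]
  · simp only [ENNReal.toReal_inv, ENNReal.toReal_natCast, smul_eq_mul]
    congr 1
    apply Finset.sum_congr rfl
    intro z _
    exact integral_dirac' _ _ hf.measurable.stronglyMeasurable
  · intro z _
    exact hf.integrable _

/-- existence of an invariant probability measure that is a limit of empirical measures -/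
lemma exists_limit (x0 : Cfg n) : ∃ μ : Measure (Cfg n), IsProbabilityMeasure μ ∧ ShInv μ ∧
    ∀ f : Cfg n → ℝ, Loc f → (∀ z, f (sh z x0) = 0) → ∫ x, f x ∂μ = 0 := by
  classical
  let P : ℕ → ProbabilityMeasure (Cfg n) := fun k => ⟨emp x0 k, inferInstance⟩
  let U : Ultrafilter ℕ := hyperfilter ℕ
  obtain ⟨μ, -, hμ⟩ := isCompact_univ.ultrafilter_le_nhds (U.map P) (by simp)
  have hU : (U : Filter ℕ) ≤ atTop := Nat.hyperfilter_le_atTop
  have htend : Tendsto P U (𝓝 μ) := hμ
  have hint : ∀ f : Cfg n → ℝ, Loc f →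
      Tendsto (fun k => ∫ x, f x ∂(emp x0 k)) U (𝓝 (∫ x, f x ∂(μ : Measure (Cfg n)))) := by
    intro f hf
    have := (ProbabilityMeasure.tendsto_iff_forall_integral_tendsto.1 htend)
      (BoundedContinuousFunction.mkOfCompact ⟨f, hf.continuous⟩)
    exact this
  refine ⟨μ, inferInstance, ?_, ?_⟩
  · -- invariance
    intro a
    have hmeas : Measurable (fun X : (Fin 2 → ℤ) → Fin n => fun i => X (i - a)) :=
      measurable_pi_lambda _ (fun _ => measurable_pi_apply _)
    have : IsProbabilityMeasure ((μ : Measure (Cfg n)).map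
      (fun X : (Fin 2 → ℤ) → Fin n => fun i => X (i - a))) :=
        Measure.isProbabilityMeasure_map hmeas.aemeasurable
    apply ext_loc
    intro f hf
    rw [integral_map hmeas.aemeasurable hf.measurable.aestronglyMeasurable]
    have e : (fun X : Cfg n => f (fun i => X (i - a))) = fun X => f (sh (-a) X) := by
      funext X
      congr 1
    have h1 : ∫ x, f (sh (-a) x) ∂(μ : Measure (Cfg n)) = ∫ x, f x ∂(μ : Measure (Cfg n)) := by
      have t1 := hint _ (hf.shift (-a))
      have t2 := hint _ hf
      have t3 := t1.sub t2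
      have hzero : Tendsto (fun k => ∫ x, f (sh (-a) x) ∂(emp x0 k) - ∫ x, f x ∂(emp x0 k)) atTop (𝓝 0) := by
        obtain ⟨C, hC0, hC⟩ := hf.bdd
        obtain ⟨m, hm⟩ : ∃ m : ℕ, -a ∈ box m := by
          refine ⟨(|a 0| + |a 1|).toNat, ?_⟩
          rw [mem_box]
          have h1 := abs_nonneg (a 0)
          have h2 := abs_nonneg (a 1)
          simp only [Pi.neg_apply, abs_neg]
          constructor <;> omega
        have hr := (card_ratio m).const_mul (2 * C)
        rw [mul_zero] at hr
        apply squeeze_zero_norm' _ hr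
        filter_upwards [eventually_ge_atTop m] with k hk
        rw [integral_emp x0 k (hf.shift (-a)), integral_emp x0 k hf, Real.norm_eq_abs, ← mul_sub,
          abs_mul]
        have hb := sum_box_shift (fun z => f (sh z x0)) C (fun z => hC _) (-a) m k hm hk
        have e3 : ∑ z ∈ box k, f (sh (-a) (sh z x0)) = ∑ z ∈ box k, f (sh (z + -a) x0) := by
          apply Finset.sum_congr rfl
          intro z _
          rw [sh_sh, add_comm]
        rw [e3, abs_of_nonneg (by positivity)]
        have hpos : (0 : ℝ) ≤ ((box k).card : ℝ)⁻¹ := by positivity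
        calc ((box k).card : ℝ)⁻¹ * |∑ z ∈ box k, f (sh (z + -a) x0) - ∑ z ∈ box k, f (sh z x0)|
            ≤ ((box k).card : ℝ)⁻¹ * (2 * C * ((box k).card - (box (k - m)).card)) :=
              mul_le_mul_of_nonneg_left hb hpos
          _ = 2 * C * (((box k).card - (box (k - m)).card) / (box k).card) := by
              rw [div_eq_mul_inv]
              ring
      have := tendsto_nhds_unique t3 (hzero.mono_left hU)
      linarith
    calc ∫ x, f (fun i => x (i - a)) ∂(μ : Measure (Cfg n))
        = ∫ x, f (sh (-a) x) ∂(μ : Measure (Cfg n)) := by rw [← e]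
      _ = _ := h1
  · intro f hf hzero
    have t := hint f hf
    have : (fun k => ∫ x, f x ∂(emp x0 k)) = fun _ => 0 := by
      funext k
      rw [integral_emp x0 k hf]
      simp [hzero]
    rw [this] at t
    exact (tendsto_nhds_unique t tendsto_const_nhds)

end Pool.Agent.MPa03d92
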