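import Pool.Agent.Work.MP_a03d92_mp.B.Exist

/-!
# Part B : the frozen statement S15767 from any substitution system
-/

set_option autoImplicit false

open MeasureTheory Function Filter
open scoped BigOperators Topology ENNReal

namespace Pool.Agent.MPa03d92

variable {n : ℕ}

lemma Loc.isClosed_ne {r : Cfg n → ℝ} (hr : Loc r) : IsClosed {x : Cfg n | r x ≠ 0} := by
  obtain ⟨F, g, hg⟩ := hr.factor
  have h : Continuous (fun x : Cfg n => (fun i => x i : F → Fin n)) :=
    continuous_pi (fun i => continuous_apply _)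
  have e : {x : Cfg n | r x ≠ 0} = (fun x : Cfg n => (fun i => x i : F → Fin n)) ⁻¹' {p | g p ≠ 0} := by
    ext x
    simp [hg]
  rw [e]
  exact (isClosed_discrete _).preimage h

namespace SS

variable (S : SS n)

lemma exists_radius {r : Cfg n → ℝ} (hr : Loc r) (h0 : ∀ x ∈ XT S, r x = 0) :
    ∃ M : ℕ, ∀ Y : Cfg n, (∀ z ∈ box M, S.Good (sh z Y)) → r Y = 0 := by
  by_contra hcon
  push Not at hcon
  have hclosed : ∀ m, IsClosed (S.C m ∩ {x : Cfg n | r x ≠ 0}) := fun m =>
    (S.isClosed_C m).inter hr.isClosed_ne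
  have h := IsCompact.nonempty_iInter_of_sequence_nonempty_isCompact_isClosed
    (fun m => S.C m ∩ {x : Cfg n | r x ≠ 0})
    (fun m => fun x hx => ⟨fun z hz => hx.1 z (box_mono (Nat.le_succ m) hz), hx.2⟩)
    (fun m => by
      obtain ⟨Y, h1, h2⟩ := hcon m
      exact ⟨Y, h1, h2⟩) (hclosed 0).isCompact hclosed
  obtain ⟨x, hx⟩ := h
  rw [Set.mem_iInter] at hx
  apply (hx 0).2
  apply h0
  rw [S.mem_XT_iff]
  intro z
  apply (hx (|z 0| + |z 1|).toNat).1
  rw [mem_box]
  have h1 := abs_nonneg (z 0)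
  have h2 := abs_nonneg (z 1)
  constructor <;> omega

/-- stability estimate -/
lemma stable_bound {r : Cfg n → ℝ} (hr : Loc r) (h0 : ∀ x ∈ XT S, r x = 0) :
    ∃ K : ℝ, 0 ≤ K ∧ ∀ X Y : Cfg n, X ∈ XT S → {i | Y i ≠ X i}.Finite →
      |sd r X Y| ≤ K * sd (site S.Φ0) X Y := by
  classical
  obtain ⟨M, hM⟩ := S.exists_radius hr h0
  obtain ⟨C, hC0, hC⟩ := hr.bdd
  refine ⟨2 * (C * (box M).card), by positivity, fun X Y hX hXY => ?_⟩
  have hsl : Loc (site S.Φ0) := S.adm_Φ0.loc_site
  have hs0 : ∀ z, dff (site S.Φ0) X Y z = site S.Φ0 (sh z Y) := by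
    intro z
    simp only [dff]
    rw [S.site_XT (XT_sh hX z), sub_zero]
  have hr0 : ∀ z, dff r X Y z = r (sh z Y) := by
    intro z
    simp only [dff]
    rw [h0 _ (XT_sh hX z), sub_zero]
  -- the finite set of bad points
  have hVfin : {z : Pt | ¬ S.Good (sh z Y)}.Finite := by
    apply (hsl.dff_support hXY).subset
    intro z hz
    rw [mem_support, hs0]
    have := S.site_bad hz
    intro h
    rw [h] at this
    norm_num at this
  let V : Finset Pt := hVfin.toFinset
  have hVmem : ∀ z, z ∈ V ↔ ¬ S.Good (sh z Y) := by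
    intro z
    simp [V]
  -- lower bound
  have h1 : (1 / 2 : ℝ) * V.card ≤ sd (site S.Φ0) X Y := by
    unfold sd
    have hfin : (support (dff (site S.Φ0) X Y)).Finite := hsl.dff_support hXY
    have hsub : (V : Set Pt) ⊆ support (dff (site S.Φ0) X Y) := by
      intro z hz
      rw [mem_support, hs0]
      have := S.site_bad ((hVmem z).1 hz)
      intro h
      rw [h] at this
      norm_num at this
    rw [finsum_eq_sum_of_support_toFinset_subset _ hfin (s := hfin.toFinset) (le_refl _)]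
    calc (1 / 2 : ℝ) * V.card = ∑ z ∈ V, (1 / 2 : ℝ) := by
          rw [Finset.sum_const, nsmul_eq_mul]
          ring
      _ ≤ ∑ z ∈ V, dff (site S.Φ0) X Y z := by
          apply Finset.sum_le_sum
          intro z hz
          rw [hs0]
          exact S.site_bad ((hVmem z).1 hz)
      _ ≤ ∑ z ∈ hfin.toFinset, dff (site S.Φ0) X Y z := by
          apply Finset.sum_le_sum_of_subset_of_nonneg
          · intro z hz
            rw [Set.Finite.mem_toFinset]
            exact hsub hz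
          · intro z _ _
            rw [hs0]
            exact S.site_nonneg _
  -- upper bound
  have h2 : |sd r X Y| ≤ C * ((box M).card * V.card) := by
    unfold sd
    have hsupp : support (dff r X Y) ⊆ ((box M ×ˢ V).image (fun p => p.2 - p.1) : Finset Pt) := by
      intro z hz
      rw [mem_support, hr0] at hz
      have : ∃ w ∈ box M, ¬ S.Good (sh w (sh z Y)) := by
        by_contra hcon
        push Not at hcon
        exact hz (hM _ hcon)
      obtain ⟨w, hw, hbad⟩ := this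
      rw [sh_sh] at hbad
      simp only [Finset.coe_image, Set.mem_image, Finset.mem_coe, Finset.mem_product]
      exact ⟨(w, w + z), ⟨hw, (hVmem _).2 hbad⟩, add_sub_cancel_left w z⟩
    rw [finsum_eq_sum_of_support_subset _ hsupp]
    refine (Finset.abs_sum_le_sum_abs _ _).trans ?_
    calc ∑ z ∈ (box M ×ˢ V).image (fun p => p.2 - p.1), |dff r X Y z|
        ≤ ∑ z ∈ (box M ×ˢ V).image (fun p => p.2 - p.1), C := by
          apply Finset.sum_le_sum
          intro z _
          rw [hr0]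
          exact hC _
      _ = ((box M ×ˢ V).image (fun p => p.2 - p.1)).card * C := by
          rw [Finset.sum_const, nsmul_eq_mul]
      _ ≤ (((box M).card * V.card : ℕ) : ℝ) * C := by
          apply mul_le_mul_of_nonneg_right _ hC0
          have := Finset.card_image_le (s := box M ×ˢ V) (f := fun p : Pt × Pt => p.2 - p.1)
          rw [Finset.card_product] at this
          exact_mod_cast this
      _ = C * ((box M).card * V.card) := by
          push_cast
          ring
  calc |sd r X Y| ≤ C * ((box M).card * V.card) := h2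
    _ = 2 * (C * (box M).card) * (1 / 2 * V.card) := by ring
    _ ≤ 2 * (C * (box M).card) * sd (site S.Φ0) X Y :=
        mul_le_mul_of_nonneg_left h1 (by positivity)

/-- an invariant probability measure with zero mean energy is supported on the tiling space -/
lemma ae_XT {ν : Measure (Cfg n)} (hν : IsProbabilityMeasure ν) (hinv : ShInv ν)
    (h : ∫ x, site S.Φ0 x ∂ν = 0) : ∀ᵐ X ∂ν, X ∈ XT S := by
  have hsl : Loc (site S.Φ0) := S.adm_Φ0.loc_site
  have h1 : ∀ z : Pt, ∀ᵐ X ∂ν, S.Good (sh z X) := by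
    intro z
    have h2 : ∫ x, site S.Φ0 (sh z x) ∂ν = 0 := by rw [hinv.integral_sh hsl, h]
    have h3 := (integral_eq_zero_iff_of_nonneg (fun x => S.site_nonneg (sh z x))
      ((hsl.shift z).integrable ν)).1 h2
    filter_upwards [h3] with X hX
    by_contra hcon
    have := S.site_bad hcon
    simp only [Pi.zero_apply] at hX
    rw [hX] at this
    norm_num at this
  have h2 := ae_all_iff.2 h1
  filter_upwards [h2] with X hX
  exact S.mem_XT_iff.2 hX

/-- ground state measures of the tile interaction have zero mean energy -/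
lemma mean_zero {ν : Measure (Cfg n)} (hν : GSM S.Φ0 ν) : ∫ x, site S.Φ0 x ∂ν = 0 := by
  classical
  obtain ⟨hprob, hinv, hgs⟩ := hν
  have hinv' : ShInv ν := hinv
  have hsl : Loc (site S.Φ0) := S.adm_Φ0.loc_site
  obtain ⟨x0, hx0⟩ := S.XT_nonempty
  obtain ⟨R, hR⟩ := S.adm_Φ0.2.2
  obtain ⟨C, hC0, hC⟩ := hsl.bdd
  set I : ℝ := ∫ x, site S.Φ0 x ∂ν with hI
  have hInn : 0 ≤ I := integral_nonneg (fun x => S.site_nonneg x)
  have hdep : ∀ x y : Cfg n, (∀ z ∈ box R, x z = y z) → site S.Φ0 x = site S.Φ0 y := by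
    intro x y hxy
    rw [site_eq_sum hR, site_eq_sum hR]
    apply Finset.sum_congr rfl
    intro Λ hΛ
    rw [Finset.mem_powerset] at hΛ
    rw [S.adm_Φ0.1 Λ x y (fun i hi => hxy i (hΛ hi))]
  -- pointwise inequality
  have hpt : ∀ k : ℕ, 2 * R ≤ k → ∀ᵐ X ∂ν, ∑ z ∈ box (k - 2 * R), site S.Φ0 (sh z X) ≤
      C * ((box k).card - (box (k - 2 * R)).card) := by
    intro k hk
    filter_upwards [hgs] with X hX
    let m := k - R
    let Y : Cfg n := fun z => if z ∈ box m then x0 z else X z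
    have hfin : {i | Y i ≠ X i}.Finite := by
      apply (box m).finite_toSet.subset
      intro i hi
      by_contra hcon
      apply hi
      simp only [Y]
      rw [if_neg (by simpa using hcon)]
    have h1 := hX Y hfin
    have h2 : ∑ᶠ Λ : Finset (Fin 2 → ℤ), (S.Φ0 Λ Y - S.Φ0 Λ X) = sd (site S.Φ0) X Y :=
      (S.adm_Φ0.energy hfin).2
    rw [h2] at h1
    have hsub : box (k - 2 * R) ⊆ box k := box_mono (Nat.sub_le _ _)
    have h3 : sd (site S.Φ0) X Y = ∑ z ∈ box k, dff (site S.Φ0) X Y z := by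
      unfold sd
      apply finsum_eq_sum_of_support_subset
      intro z hz
      by_contra hcon
      apply hz
      simp only [dff]
      rw [hdep (sh z Y) (sh z X), sub_self]
      intro w hw
      simp only [sh_apply, Y]
      rw [if_neg]
      intro hmem
      apply hcon
      simp only [Finset.mem_coe]
      rw [mem_box, abs_le, abs_le] at hmem hw ⊢
      simp only [Pi.add_apply] at hmem
      have : ((m : ℕ) : ℤ) = k - R := by
        simp only [m]
        rw [Nat.cast_sub (by omega)]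
      rw [this] at hmem
      omega
    have hin : ∀ z ∈ box (k - 2 * R), dff (site S.Φ0) X Y z = - site S.Φ0 (sh z X) := by
      intro z hz
      simp only [dff]
      have : site S.Φ0 (sh z Y) = 0 := by
        rw [← S.site_XT (XT_sh hx0 z)]
        apply hdep
        intro w hw
        simp only [sh_apply, Y]
        rw [if_pos]
        rw [mem_box, abs_le, abs_le] at hz hw ⊢
        simp only [Pi.add_apply]
        have e1 : ((m : ℕ) : ℤ) = k - R := by
          simp only [m]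
          rw [Nat.cast_sub (by omega)]
        rw [Nat.cast_sub hk] at hz
        push_cast at hz
        rw [e1]
        omega
      rw [this, zero_sub]
    have hout : ∀ z, dff (site S.Φ0) X Y z ≤ C := by
      intro z
      simp only [dff]
      have h5 := le_abs_self (site S.Φ0 (sh z Y))
      have h6 := hC (sh z Y)
      have h7 := S.site_nonneg (sh z X)
      linarith
    rw [h3, ← Finset.sum_sdiff hsub, Finset.sum_congr rfl hin, Finset.sum_neg_distrib] at h1
    have h4 : ∑ z ∈ box k \ box (k - 2 * R), dff (site S.Φ0) X Y z ≤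
        C * ((box k).card - (box (k - 2 * R)).card) := by
      refine (Finset.sum_le_sum (fun z _ => hout z)).trans ?_
      rw [Finset.sum_const, Finset.card_sdiff_of_subset hsub, nsmul_eq_mul,
        Nat.cast_sub (Finset.card_le_card hsub)]
      linarith
    linarith
  -- integrate
  have hint : ∀ k : ℕ, 2 * R ≤ k → (box (k - 2 * R)).card * I ≤
      C * ((box k).card - (box (k - 2 * R)).card) := by
    intro k hk
    have h1 : ∫ X, ∑ z ∈ box (k - 2 * R), site S.Φ0 (sh z X) ∂ν = (box (k - 2 * R)).card * I := by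
      rw [integral_finsetSum]
      · have : ∀ z ∈ box (k - 2 * R), ∫ X, site S.Φ0 (sh z X) ∂ν = I := by
          intro z _
          exact hinv'.integral_sh hsl z
        rw [Finset.sum_congr rfl this, Finset.sum_const, nsmul_eq_mul]
      · intro z _
        exact (hsl.shift z).integrable ν
    rw [← h1]
    have h2 : ∫ X, (C * ((box k).card - (box (k - 2 * R)).card) : ℝ) ∂ν =
        C * ((box k).card - (box (k - 2 * R)).card) := by
      simp
    rw [← h2]
    apply integral_mono_ae _ (integrable_const _) (hpt k hk)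
    apply integrable_finsetSum
    intro z _
    exact (hsl.shift z).integrable ν
  have hlim := (card_ratio (2 * R)).const_mul (C + I)
  rw [mul_zero] at hlim
  have hle : I ≤ 0 := by
    refine ge_of_tendsto hlim ?_
    filter_upwards [eventually_ge_atTop (2 * R)] with k hk
    have h1 := hint k hk
    have hpos : (0 : ℝ) < (box k).card := by
      have := card_box_ne k
      positivity
    rw [← mul_div_assoc, le_div_iff₀ hpos]
    nlinarith
  exact le_antisymm hle hInn

lemma integral_vanish {r : Cfg n → ℝ} (h0 : ∀ x ∈ XT S, r x = 0) {ν : Measure (Cfg n)}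
    (h : ∀ᵐ X ∂ν, X ∈ XT S) : ∫ x, r x ∂ν = 0 := by
  apply integral_eq_zero_of_ae
  filter_upwards [h] with X hX
  exact h0 X hX

include S in
theorem main : ∃ Φ : Finset (Fin 2 → ℤ) → ((Fin 2 → ℤ) → Fin n) → ℝ, Adm Φ ∧
    ∃ μ : Measure ((Fin 2 → ℤ) → Fin n), GSM Φ μ ∧ (∀ ν, GSM Φ ν → ν = μ) ∧
      μ {X | ∃ a : Fin 2 → ℤ, a ≠ 0 ∧ (fun i => X (i - a)) = X} = 0 ∧
      ∀ Φ', Adm Φ' → ∃ ε₀ : ℝ, 0 < ε₀ ∧ ∀ ε : ℝ, 0 ≤ ε → ε < ε₀ →
        GSM (fun Λ X => Φ Λ X + ε * Φ' Λ X) μ := by
  obtain ⟨x0, hx0⟩ := S.XT_nonempty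
  obtain ⟨μ, hprob, hinv, hzero⟩ := exists_limit x0
  have hsl : Loc (site S.Φ0) := S.adm_Φ0.loc_site
  have hμ0 : ∫ x, site S.Φ0 x ∂μ = 0 := hzero _ hsl (fun z => S.site_XT (XT_sh hx0 z))
  have hμXT := S.ae_XT hprob hinv hμ0
  have hgs : ∀ X ∈ XT S, ∀ Y : Cfg n, 0 ≤ ∑ᶠ Λ : Finset (Fin 2 → ℤ), (S.Φ0 Λ Y - S.Φ0 Λ X) := by
    intro X hX Y
    apply finsum_nonneg
    intro Λ
    rw [S.Φ0_XT hX, sub_zero]
    exact S.Φ0_nonneg Λ Y
  refine ⟨S.Φ0, S.adm_Φ0, μ, ⟨hprob, hinv, ?_⟩, ?_, ?_, ?_⟩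
  · filter_upwards [hμXT] with X hX Y _
    exact hgs X hX Y
  · -- uniqueness
    intro ν hν
    have hν0 := S.mean_zero hν
    obtain ⟨hνp, hνinv, _⟩ := hν
    have hνXT := S.ae_XT hνp hνinv hν0
    apply ext_loc
    intro f hf
    obtain ⟨c, r, hr, hr0, hri, _⟩ := S.coh_spec hf
    rw [hri ν hνp hνinv, hri μ hprob hinv, S.integral_vanish hr0 hνXT, S.integral_vanish hr0 hμXT]
  · -- non-periodicity
    refine measure_mono_null ?_ (ae_iff.1 hμXT)
    rintro X ⟨a, ha, hper⟩ hX
    apply ha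
    have h1 : sh (-a) X = X := by
      funext i
      have := congrFun hper i
      rw [sh_apply, ← sub_eq_add_neg]
      exact this
    have := S.aperiodic _ X (-a) hX h1 le_rfl
    exact neg_eq_zero.1 this
  · -- stability
    intro Φ' hΦ'
    obtain ⟨c, r, hr, hr0, _, hrs⟩ := S.coh_spec hΦ'.loc_site
    obtain ⟨K, hK0, hK⟩ := S.stable_bound hr hr0
    refine ⟨1 / (K + 1), by positivity, fun ε hε0 hε => ⟨hprob, hinv, ?_⟩⟩
    filter_upwards [hμXT] with X hX Y hXY
    obtain ⟨hf1, he1⟩ := S.adm_Φ0.energy hXY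
    obtain ⟨hf2, he2⟩ := hΦ'.energy hXY
    have hsplit : ∑ᶠ Λ : Finset (Fin 2 → ℤ), ((S.Φ0 Λ Y + ε * Φ' Λ Y) - (S.Φ0 Λ X + ε * Φ' Λ X)) =
        sd (site S.Φ0) X Y + ε * sd r X Y := by
      rw [← he1, ← hrs X Y hXY, ← he2, mul_finsum, ← finsum_add_distrib hf1]
      · apply finsum_congr
        intro Λ
        ring
      · apply Set.Finite.subset hf2
        intro Λ hΛ
        rw [mem_support] at hΛ ⊢
        intro h
        apply hΛ
        rw [h, mul_zero]
    rw [hsplit]
    have h1 : 0 ≤ sd (site S.Φ0) X Y := by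
      rw [← he1]
      exact hgs X hX Y
    have h2 := hK X Y hX hXY
    have h3 : -(K * sd (site S.Φ0) X Y) ≤ sd r X Y := by
      have := neg_abs_le (sd r X Y)
      linarith
    have h4 : ε * K ≤ 1 := by
      rw [lt_div_iff₀ (by positivity)] at hε
      nlinarith
    have h5 : ε * -(K * sd (site S.Φ0) X Y) ≤ ε * sd r X Y := mul_le_mul_of_nonneg_left h3 hε0
    have h6 : (ε * K) * sd (site S.Φ0) X Y ≤ 1 * sd (site S.Φ0) X Y :=
      mul_le_mul_of_nonneg_right h4 h1
    nlinarith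

end SS

/-- **Part B.** Any substitution system gives the frozen statement S15767. -/
theorem of_substSystem (S : SubstSystem) :
  ∃ d : ℕ, 1 ≤ d ∧ ∃ n : ℕ,
    ∃ Adm : (Finset (Fin d → ℤ) → ((Fin d → ℤ) → Fin n) → ℝ) → Prop,
    (∀ Φ, Adm Φ ↔
      (∀ (Λ : Finset (Fin d → ℤ)) (X Y : (Fin d → ℤ) → Fin n),
          (∀ i ∈ Λ, X i = Y i) → Φ Λ X = Φ Λ Y) ∧
      (∀ (Λ : Finset (Fin d → ℤ)) (X : (Fin d → ℤ) → Fin n) (a : Fin d → ℤ),
          Φ (Λ.image (fun i => i + a)) (fun i => X (i - a)) = Φ Λ X) ∧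
      (∃ R : ℕ, ∀ Λ : Finset (Fin d → ℤ),
          (∃ i ∈ Λ, ∃ j ∈ Λ, ∃ k : Fin d, (R : ℤ) < |i k - j k|) →
          ∀ X : (Fin d → ℤ) → Fin n, Φ Λ X = 0)) ∧
    ∃ GSM : (Finset (Fin d → ℤ) → ((Fin d → ℤ) → Fin n) → ℝ) →
        Measure ((Fin d → ℤ) → Fin n) → Prop,
    (∀ Φ μ, GSM Φ μ ↔
      IsProbabilityMeasure μ ∧
      (∀ a : Fin d → ℤ,
          μ.map (fun X : (Fin d → ℤ) → Fin n => fun i => X (i - a)) = μ) ∧
      (∀ᵐ X ∂μ, ∀ Y : (Fin d → ℤ) → Fin n, {i | Y i ≠ X i}.Finite →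
          0 ≤ ∑ᶠ Λ : Finset (Fin d → ℤ), (Φ Λ Y - Φ Λ X))) ∧
    ∃ Φ, Adm Φ ∧ ∃ μ, GSM Φ μ ∧ (∀ ν, GSM Φ ν → ν = μ) ∧
      μ {X | ∃ a : Fin d → ℤ, a ≠ 0 ∧ (fun i => X (i - a)) = X} = 0 ∧
      ∀ Φ', Adm Φ' → ∃ ε₀ : ℝ, 0 < ε₀ ∧ ∀ ε : ℝ, 0 ≤ ε → ε < ε₀ →
        GSM (fun Λ X => Φ Λ X + ε * Φ' Λ X) μ :=
  ⟨2, by norm_num, Fintype.card S.T, Adm, fun _ => Iff.rfl, GSM, fun _ _ => Iff.rfl, S.toSS.main⟩

end Pool.Agent.MPa03d92
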