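import Pool.Agent.Work.MP_a03d92_mp.B.Coh

/-!
# Part B : local functions: measurability, continuity, sums over shifts
-/

set_option autoImplicit false

open MeasureTheory Function
open scoped BigOperators Topology

namespace Pool.Agent.MPa03d92

variable {n : ℕ}

/-- a local function factors through the restriction to a finite set -/
lemma Loc.factor {f : Cfg n → ℝ} (hf : Loc f) :
    ∃ F : Finset Pt, ∃ g : (F → Fin n) → ℝ, ∀ x, f x = g (fun i => x i) := by
  classical
  obtain ⟨F, hF⟩ := hf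
  by_cases hne : Nonempty (Fin n)
  · obtain ⟨t⟩ := hne
    refine ⟨F, fun p => f (fun z => if h : z ∈ F then p ⟨z, h⟩ else t), fun x => hF _ _ ?_⟩
    intro z hz
    have hz' : z ∈ F := hz
    simp [hz']
  · refine ⟨F, fun _ => 0, fun x => ?_⟩
    exact absurd ⟨x 0⟩ hne

lemma Loc.continuous {f : Cfg n → ℝ} (hf : Loc f) : Continuous f := by
  obtain ⟨F, g, hg⟩ := hf.factor
  have e : f = g ∘ (fun x : Cfg n => fun i : F => x i) := by
    funext x
    exact hg x
  rw [e]
  exact continuous_of_discreteTopology.comp (continuous_pi (fun i => continuous_apply _))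

lemma Loc.measurable {f : Cfg n → ℝ} (hf : Loc f) : Measurable f := by
  obtain ⟨F, g, hg⟩ := hf.factor
  have e : f = g ∘ (fun x : Cfg n => fun i : F => x i) := by
    funext x
    exact hg x
  rw [e]
  exact (measurable_of_finite g).comp (measurable_pi_lambda _ (fun i => measurable_pi_apply _))

lemma Loc.bdd {f : Cfg n → ℝ} (hf : Loc f) : ∃ C : ℝ, 0 ≤ C ∧ ∀ x, |f x| ≤ C := by
  classical
  obtain ⟨F, g, hg⟩ := hf.factor
  refine ⟨∑ p : (F → Fin n), |g p|, Finset.sum_nonneg (fun _ _ => abs_nonneg _), fun x => ?_⟩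
  rw [hg]
  exact Finset.single_le_sum (f := fun p : (F → Fin n) => |g p|) (fun _ _ => abs_nonneg _)
    (Finset.mem_univ _)

lemma Loc.integrable {f : Cfg n → ℝ} (hf : Loc f) (ν : Measure (Cfg n)) [IsFiniteMeasure ν] :
    Integrable f ν := by
  obtain ⟨C, _, hC⟩ := hf.bdd
  exact Integrable.of_bound hf.measurable.aestronglyMeasurable C
    (Filter.Eventually.of_forall (fun x => by simpa using hC x))

/-- shift invariance, in the form of the frozen statement -/
def ShInv (ν : Measure (Cfg n)) : Prop :=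
  ∀ a : Fin 2 → ℤ, ν.map (fun X : (Fin 2 → ℤ) → Fin n => fun i => X (i - a)) = ν

lemma measurable_sh (v : Pt) : Measurable (sh v : Cfg n → Cfg n) :=
  measurable_pi_lambda _ (fun _ => measurable_pi_apply _)

lemma ShInv.map_sh {ν : Measure (Cfg n)} (h : ShInv ν) (v : Pt) : ν.map (sh v) = ν := by
  have := h (-v)
  have e : (fun X : (Fin 2 → ℤ) → Fin n => fun i => X (i - (-v))) = sh v := by
    funext X i
    simp
  rwa [e] at this

lemma ShInv.integral_sh {ν : Measure (Cfg n)} (h : ShInv ν) {f : Cfg n → ℝ} (hf : Loc f) (v : Pt) :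
    ∫ x, f (sh v x) ∂ν = ∫ x, f x ∂ν := by
  have h1 : ∫ x, f x ∂(ν.map (sh v)) = ∫ x, f (sh v x) ∂ν :=
    integral_map (measurable_sh v).aemeasurable hf.measurable.aestronglyMeasurable
  rw [← h1, h.map_sh]

/-- difference of the values of a local function along two configurations that differ finitely -/
def dff (f : Cfg n → ℝ) (X Y : Cfg n) (z : Pt) : ℝ := f (sh z Y) - f (sh z X)

lemma Loc.dff_support {f : Cfg n → ℝ} (hf : Loc f) {X Y : Cfg n} (hXY : {i | Y i ≠ X i}.Finite) :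
    HasFiniteSupport (dff f X Y) := by
  classical
  obtain ⟨F, hF⟩ := hf
  apply Set.Finite.subset (s := ⋃ w ∈ F, (fun z => z + w) ⁻¹' {i | Y i ≠ X i})
  · apply Set.Finite.biUnion F.finite_toSet
    intro w _
    exact hXY.preimage (fun a _ b _ h => add_right_cancel h)
  · intro z hz
    by_contra hcon
    apply hz
    simp only [dff]
    rw [hF (sh z Y) (sh z X), sub_self]
    intro w hw
    by_contra hne
    apply hcon
    simp only [Set.mem_iUnion]
    refine ⟨w, hw, ?_⟩
    simp only [Set.mem_preimage, Set.mem_ofPred_eq]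
    simp only [sh_apply] at hne
    rwa [add_comm w z] at hne

/-- sums of differences -/
noncomputable def sd (f : Cfg n → ℝ) (X Y : Cfg n) : ℝ := ∑ᶠ z, dff f X Y z

lemma sd_const (c : ℝ) (X Y : Cfg n) : sd (fun _ => c) X Y = 0 := by
  simp [sd, dff]

lemma sd_add {f g : Cfg n → ℝ} (hf : Loc f) (hg : Loc g) {X Y : Cfg n} (hXY : {i | Y i ≠ X i}.Finite) :
    sd (fun x => f x + g x) X Y = sd f X Y + sd g X Y := by
  simp only [sd]
  rw [← finsum_add_distrib (hf.dff_support hXY) (hg.dff_support hXY)]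
  apply finsum_congr
  intro z
  simp only [dff]
  ring

lemma sd_sub {f g : Cfg n → ℝ} (hf : Loc f) (hg : Loc g) {X Y : Cfg n} (hXY : {i | Y i ≠ X i}.Finite) :
    sd (fun x => f x - g x) X Y = sd f X Y - sd g X Y := by
  simp only [sd]
  rw [← finsum_sub_distrib (hf.dff_support hXY) (hg.dff_support hXY)]
  apply finsum_congr
  intro z
  simp only [dff]
  ring

lemma sd_smul (c : ℝ) (f : Cfg n → ℝ) (X Y : Cfg n) :
    sd (fun x => c * f x) X Y = c * sd f X Y := by
  simp only [sd]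
  rw [mul_finsum]
  apply finsum_congr
  intro z
  simp only [dff]
  ring

lemma sd_shift (f : Cfg n → ℝ) (v : Pt) (X Y : Cfg n) :
    sd (fun x => f (sh v x)) X Y = sd f X Y := by
  simp only [sd]
  rw [← finsum_comp_equiv (Equiv.addLeft v) (f := fun z => dff f X Y z)]
  apply finsum_congr
  intro z
  simp only [dff, sh_sh, Equiv.coe_addLeft]

namespace SS

variable (S : SS n)

/-- the key consequence of `Coh` -/
theorem coh_spec {f : Cfg n → ℝ} (hf : Loc f) :
    ∃ c : ℝ, ∃ r : Cfg n → ℝ, Loc r ∧ (∀ x ∈ XT S, r x = 0) ∧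
      (∀ ν : Measure (Cfg n), IsProbabilityMeasure ν → ShInv ν →
        ∫ x, f x ∂ν = c + ∫ x, r x ∂ν) ∧
      (∀ X Y : Cfg n, {i | Y i ≠ X i}.Finite → sd f X Y = sd r X Y) := by
  have hc := S.coh_all hf
  suffices h : Loc f ∧ ∃ c : ℝ, ∃ r : Cfg n → ℝ, Loc r ∧ (∀ x ∈ XT S, r x = 0) ∧
      (∀ ν : Measure (Cfg n), IsProbabilityMeasure ν → ShInv ν →
        ∫ x, f x ∂ν = c + ∫ x, r x ∂ν) ∧
      (∀ X Y : Cfg n, {i | Y i ≠ X i}.Finite → sd f X Y = sd r X Y) from h.2
  refine Submodule.span_induction (p := fun f _ => Loc f ∧ ∃ c : ℝ, ∃ r : Cfg n → ℝ, Loc r ∧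
    (∀ x ∈ XT S, r x = 0) ∧
      (∀ ν : Measure (Cfg n), IsProbabilityMeasure ν → ShInv ν →
        ∫ x, f x ∂ν = c + ∫ x, r x ∂ν) ∧
      (∀ X Y : Cfg n, {i | Y i ≠ X i}.Finite → sd f X Y = sd r X Y)) ?_ ?_ ?_ ?_ hc
  · rintro f (⟨c, rfl⟩ | ⟨hf, h0⟩ | ⟨k, v, hk, rfl⟩)
    · refine ⟨Loc.const c, c, fun _ => 0, Loc.const 0, fun _ _ => rfl, ?_, ?_⟩
      · intro ν hν _
        simp
      · intro X Y _
        rw [sd_const, sd_const]
    · exact ⟨hf, 0, f, hf, h0, fun ν _ _ => by simp, fun X Y _ => rfl⟩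
    · refine ⟨hk.sub (hk.shift v), 0, fun _ => 0, Loc.const 0, fun _ _ => rfl, ?_, ?_⟩
      · intro ν hν hinv
        have : ∫ x, (k x - k (sh v x)) ∂ν = ∫ x, k x ∂ν - ∫ x, k (sh v x) ∂ν :=
          integral_sub (hk.integrable ν) ((hk.shift v).integrable ν)
        rw [this, hinv.integral_sh hk]
        simp
      · intro X Y hXY
        rw [sd_sub hk (hk.shift v) hXY, sd_shift, sub_self, sd_const]
  · refine ⟨Loc.const 0, 0, fun _ => 0, Loc.const 0, fun _ _ => rfl, ?_, ?_⟩
    · intro ν _ _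
      simp
    · intro X Y _
      rfl
  · rintro f g _ _ ⟨hf, c, r, hr, hr0, hri, hrs⟩ ⟨hg, c', r', hr', hr0', hri', hrs'⟩
    refine ⟨hf.add hg, c + c', fun x => r x + r' x, hr.add hr', ?_, ?_, ?_⟩
    · intro x hx
      change r x + r' x = 0
      rw [hr0 x hx, hr0' x hx, add_zero]
    · intro ν hν hinv
      have e1 : ∫ x, (f + g) x ∂ν = ∫ x, f x ∂ν + ∫ x, g x ∂ν :=
        integral_add (hf.integrable ν) (hg.integrable ν)
      have e2 : ∫ x, (r x + r' x) ∂ν = ∫ x, r x ∂ν + ∫ x, r' x ∂ν :=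
        integral_add (hr.integrable ν) (hr'.integrable ν)
      rw [e1, e2, hri ν hν hinv, hri' ν hν hinv]
      ring
    · intro X Y hXY
      rw [sd_add hr hr' hXY, ← hrs X Y hXY, ← hrs' X Y hXY, ← sd_add hf hg hXY]
      rfl
  · rintro a f _ ⟨hf, c, r, hr, hr0, hri, hrs⟩
    refine ⟨(Loc.const a).mul hf, a * c, fun x => a * r x, (Loc.const a).mul hr, ?_, ?_, ?_⟩
    · intro x hx
      change a * r x = 0
      rw [hr0 x hx, mul_zero]
    · intro ν hν hinv
      have e1 : ∫ x, (a • f) x ∂ν = a * ∫ x, f x ∂ν := by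
        simp only [Pi.smul_apply, smul_eq_mul]
        exact integral_const_mul a f
      have e2 : ∫ x, a * r x ∂ν = a * ∫ x, r x ∂ν := integral_const_mul a r
      rw [e1, e2, hri ν hν hinv]
      ring
    · intro X Y hXY
      rw [sd_smul, ← hrs X Y hXY, ← sd_smul]
      rfl

end SS

end Pool.Agent.MPa03d92
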